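import Pool.Agent.RB.Words

/-!
# The final count
-/

set_option autoImplicit false

namespace Pool.RB

open LaurentPolynomial

open scoped Classical

variable {K n : ℕ}

/-- The average over the positions of the weights. -/
theorem avp_exp (hK : 0 < K) (κ : ℝ) (q : ℕ) :
    (avp q fun M : List (Blk K) => Real.exp (-κ * (M.countP fun s => nb s))) =
      ((∑ a : Fin K × Fin K, Real.exp (-κ * (if nb (a.1, a.2, []) = true then 1 else 0))) /
        (K * K)) ^ q := by
  induction q with
  | zero =>
    show Real.exp (-κ * ((([] : List (Blk K)).countP fun s => nb s : ℕ) : ℝ)) = _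
    simp
  | succ q ih =>
    show (∑ a : Fin K × Fin K, avp q fun M =>
      Real.exp (-κ * ((((a.1, a.2, []) :: M : List (Blk K)).countP fun s => nb s : ℕ) : ℝ))) /
        (K * K) = _
    have h1 : ∀ a : Fin K × Fin K, (avp q fun M =>
        Real.exp (-κ * ((((a.1, a.2, []) :: M : List (Blk K)).countP fun s => nb s : ℕ) : ℝ))) =
        Real.exp (-κ * (if nb (a.1, a.2, []) = true then 1 else 0)) *
          avp q fun M : List (Blk K) => Real.exp (-κ * (M.countP fun s => nb s)) := by
      intro a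
      rw [← avp_mul]
      congr 1
      funext M
      rw [← Real.exp_add]
      congr 1
      rw [List.countP_cons]
      split_ifs <;> push_cast <;> ring
    rw [Finset.sum_congr rfl fun a _ => h1 a, ← Finset.sum_mul, ih, pow_succ]
    ring

/-- The base of the exponential for random words. -/
theorem theta_lt (hK : 2 ≤ K) (κ : ℝ) (hκ : 0 < κ) :
    0 < (∑ a : Fin K × Fin K, Real.exp (-κ * (if nb (a.1, a.2, []) = true then 1 else 0))) /
        (K * K) ∧
    (∑ a : Fin K × Fin K, Real.exp (-κ * (if nb (a.1, a.2, []) = true then 1 else 0))) /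
        (K * K) < 1 := by
  have hK0 : (0 : ℝ) < K := by exact_mod_cast (by omega : 0 < K)
  have h0 : (⟨0, by omega⟩, ⟨1, by omega⟩) ∈ (Finset.univ : Finset (Fin K × Fin K)) :=
    Finset.mem_univ _
  constructor
  · apply div_pos _ (by positivity)
    exact Finset.sum_pos (fun a _ => Real.exp_pos _) ⟨_, h0⟩
  · rw [div_lt_one (by positivity)]
    have h1 : ∑ a : Fin K × Fin K, Real.exp (-κ * (if nb (a.1, a.2, []) = true then 1 else 0)) <
        ∑ a : Fin K × Fin K, (1 : ℝ) := by
      refine Finset.sum_lt_sum (fun a _ => ?_) ⟨_, h0, ?_⟩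
      · apply Real.exp_le_one_iff.mpr
        split_ifs
        · linarith
        · simp
      · have h2 : nb ((⟨0, by omega⟩, ⟨1, by omega⟩, []) : Blk K) = true := by
          unfold nb
          simp
        simp only [h2, if_true]
        rw [Real.exp_lt_one_iff]
        linarith
    refine h1.trans_eq ?_
    rw [Finset.sum_const, Finset.card_univ, Fintype.card_prod, Fintype.card_fin]
    simp

/-! ### the property of being a knot depends only on the positions -/

theorem push_heq {n₁ n₂ : ℕ} (D₁ : Diagram K n₁) (D₂ : Diagram K n₂) (hn : n₁ = n₂)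
    (h : D₁.next ≍ D₂.next) (a : Fin K) (ε₁ ε₂ : ℤˣ) :
    (D₁.push a ε₁).next ≍ (D₂.push a ε₂).next := by
  subst hn
  have h1 := eq_of_heq h
  apply heq_of_eq
  ext1 s
  show pushNext D₁.next a s = pushNext D₂.next a s
  rw [h1]

theorem isKnot_heq {n₁ n₂ : ℕ} (D₁ : Diagram K n₁) (D₂ : Diagram K n₂) (hn : n₁ = n₂)
    (h : D₁.next ≍ D₂.next) : D₁.IsKnot ↔ D₂.IsKnot := by
  subst hn
  have h1 := eq_of_heq h
  unfold Diagram.IsKnot
  rw [h1]

theorem insert_heq (D : Diagram K n) : ∀ w w' : List (Fin K × ℤˣ),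
    w.map Prod.fst = w'.map Prod.fst → (D.insert w).next ≍ (D.insert w').next := by
  intro w
  induction w with
  | nil =>
    intro w' h
    rw [List.map_nil, eq_comm, List.map_eq_nil_iff] at h
    subst h
    rfl
  | cons l w ih =>
    intro w' h
    rcases w' with _ | ⟨l', w'⟩
    · simp at h
    · rw [List.map_cons, List.map_cons, List.cons.injEq] at h
      have h2 : w.length = w'.length := by
        have := congrArg List.length h.2
        simpa using this
      show ((D.insert w).push l.1 l.2).next ≍ ((D.insert w').push l'.1 l'.2).next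
      rw [h.1]
      exact push_heq _ _ (by rw [h2]) (ih w' h.2) _ _ _

theorem isKnot_insert (D : Diagram K n) (w w' : List (Fin K × ℤˣ))
    (h : w.map Prod.fst = w'.map Prod.fst) (hD : (D.insert w).IsKnot) :
    (D.insert w').IsKnot := by
  refine (isKnot_heq _ _ ?_ (insert_heq D w w' h)).mp hD
  have := congrArg List.length h
  simp only [List.length_map] at this
  rw [this]

theorem boxWord_fst {m : ℕ} (w₀ : List (Fin K × ℤˣ)) (a b : Fin m → Fin K)
    (w : Fin m → List (Fin K × ℤˣ)) (ε ε' : Fin m → ℤˣ × ℤˣ) :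
    (boxWord w₀ a b w ε).map Prod.fst = (boxWord w₀ a b w ε').map Prod.fst := by
  unfold boxWord
  rw [List.map_append, List.map_append, List.map_flatten, List.map_flatten, List.map_ofFn,
    List.map_ofFn]
  rfl

/-! ### the main theorem -/

theorem main (hG : St_Gap) (h : St_PgTL) (hP : St_Par) (K : ℕ) :
    ∃ C κ : ℝ, 0 < κ ∧ ∀ (n : ℕ) (D : Diagram K n),
      (∀ (m : ℕ) (w₀ : List (Fin K × ℤˣ)) (a b : Fin m → Fin K)
        (w : Fin m → List (Fin K × ℤˣ)),
        (∀ j, (a j).val + 1 = (b j).val ∨ (b j).val + 1 = (a j).val) →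
        (∀ P : ℤ[T;T⁻¹], (Nat.card {ε : Fin m → ℤˣ × ℤˣ //
          (D.insert (boxWord w₀ a b w ε)).IsKnot ∧
            (D.insert (boxWord w₀ a b w ε)).normalized = P} : ℝ) ≤
              C * Real.exp (-κ * m) * 4 ^ m) ∧
        ((∃ ε, (D.insert (boxWord w₀ a b w ε)).IsKnot) → Real.exp (κ * m) ≤
          C * ((Set.range fun ε : Fin m → ℤˣ × ℤˣ =>
            (D.insert (boxWord w₀ a b w ε)).normalized).ncard : ℝ))) ∧
      (2 ≤ K → ∀ (t : ℕ) (P : ℤ[T;T⁻¹]), (Nat.card {w : Fin t → Fin K × ℤˣ //
        (D.insert (List.ofFn w)).IsKnot ∧ (D.insert (List.ofFn w)).normalized = P} : ℝ) ≤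
          C * Real.exp (-κ * t) * (2 * K) ^ t) := by
  obtain ⟨C, κ, hC, hκ, hmain⟩ := walk_exp hG h hP K
  obtain ⟨θ, hθ⟩ : ∃ θ : ℝ, θ = (∑ a : Fin K × Fin K,
    Real.exp (-κ * (if nb (a.1, a.2, []) = true then 1 else 0))) / (K * K) := ⟨_, rfl⟩
  obtain ⟨η, hη⟩ : ∃ η : ℝ, η = if 2 ≤ K then -Real.log θ / 2 else 1 := ⟨_, rfl⟩
  have hη0 : 0 < η := by
    rw [hη]
    split_ifs with hK
    · have h1 := theta_lt hK κ hκ
      rw [← hθ] at h1
      have := Real.log_neg h1.1 h1.2
      linarith
    · exact one_pos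
  have e1 : ∀ x : ℝ, 0 ≤ x → Real.exp (-κ * x) ≤ Real.exp η * Real.exp (-(min κ η) * x) := by
    intro x hx
    rw [← Real.exp_add]
    apply Real.exp_le_exp.mpr
    have := min_le_left κ η
    nlinarith
  have key : ∀ (n : ℕ) (D : Diagram K n) (m : ℕ) (w₀ : List (Fin K × ℤˣ)) (a b : Fin m → Fin K)
      (w : Fin m → List (Fin K × ℤˣ)),
      (∀ j, (a j).val + 1 = (b j).val ∨ (b j).val + 1 = (a j).val) →
      ∀ P : ℤ[T;T⁻¹], (Nat.card {ε : Fin m → ℤˣ × ℤˣ //
        (D.insert (boxWord w₀ a b w ε)).IsKnot ∧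
          (D.insert (boxWord w₀ a b w ε)).normalized = P} : ℝ) ≤
            C * Real.exp η * Real.exp (-(min κ η) * m) * 4 ^ m := by
    intro n D m w₀ a b w hab P
    have h1 := card_box D P w₀ a b w
    unfold Ev at h1
    rw [h1, mul_comm]
    refine mul_le_mul_of_nonneg_right ?_ (by positivity)
    refine (hmain n D P w₀ _).trans ?_
    have h2 : (List.ofFn fun j => ((a j, b j, w j) : Blk K)).countP (fun s => nb s) = m := by
      rw [List.countP_eq_length.mpr, List.length_ofFn]
      intro s hs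
      rw [List.mem_ofFn] at hs
      obtain ⟨j, rfl⟩ := hs
      exact decide_eq_true (hab j)
    rw [h2, mul_assoc C]
    exact mul_le_mul_of_nonneg_left (e1 m (by positivity)) hC.le
  refine ⟨C * Real.exp η, min κ η, lt_min hκ hη0, fun n D => ⟨?_, ?_⟩⟩
  · intro m w₀ a b w hab
    refine ⟨key n D m w₀ a b w hab, ?_⟩
    rintro ⟨ε₀, hε₀⟩
    have hk : ∀ ε, (D.insert (boxWord w₀ a b w ε)).IsKnot := fun ε =>
      isKnot_insert D _ _ (boxWord_fst w₀ a b w ε₀ ε) hε₀
    set f : (Fin m → ℤˣ × ℤˣ) → ℤ[T;T⁻¹] := fun ε =>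
      (D.insert (boxWord w₀ a b w ε)).normalized with hf
    have h1 : (Set.range f).ncard = (Finset.univ.image f).card := by
      rw [← Set.image_univ, ← Finset.coe_univ, ← Finset.coe_image, Set.ncard_coe_finset]
    rw [h1]
    have h2 := Finset.card_eq_sum_card_image f (Finset.univ : Finset (Fin m → ℤˣ × ℤˣ))
    have h3 : ((Finset.univ : Finset (Fin m → ℤˣ × ℤˣ)).card : ℝ) = 4 ^ m := by
      rw [Finset.card_univ, Fintype.card_fun, Fintype.card_fin]
      have : Fintype.card (ℤˣ × ℤˣ) = 4 := by decide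
      rw [this]
      push_cast
      rfl
    have h4 : (4 : ℝ) ^ m ≤ (Finset.univ.image f).card *
        (C * Real.exp η * Real.exp (-(min κ η) * m) * 4 ^ m) := by
      have h2' : (4 : ℝ) ^ m = ∑ P ∈ Finset.univ.image f,
          (({ε ∈ (Finset.univ : Finset (Fin m → ℤˣ × ℤˣ)) | f ε = P}.card : ℕ) : ℝ) := by
        rw [← h3, h2]
        push_cast
        rfl
      refine h2'.trans_le ?_
      rw [← nsmul_eq_mul]
      refine Finset.sum_le_card_nsmul _ _ _ fun P _ => ?_
      have h5 := key n D m w₀ a b w hab P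
      rw [Nat.card_eq_fintype_card, Fintype.card_subtype] at h5
      refine le_trans (le_of_eq ?_) h5
      congr 2
      ext ε
      simp only [Finset.mem_filter, Finset.mem_univ, true_and, hk ε, hf]
    have h6 : (0 : ℝ) < 4 ^ m := by positivity
    have h7 : Real.exp (-(min κ η) * m) = (Real.exp (min κ η * m))⁻¹ := by
      rw [neg_mul, Real.exp_neg]
    rw [h7] at h4
    have h8 := Real.exp_pos (min κ η * m)
    have h9 : (4 : ℝ) ^ m ≤ ((C * Real.exp η * (Finset.univ.image f).card) /
        Real.exp (min κ η * m)) * 4 ^ m := by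
      refine h4.trans (le_of_eq ?_)
      field_simp
    have h10 : (1 : ℝ) ≤ (C * Real.exp η * (Finset.univ.image f).card) /
        Real.exp (min κ η * m) := le_of_mul_le_mul_right (by rw [one_mul]; exact h9) h6
    rwa [le_div_iff₀ h8, one_mul] at h10
  · intro hK t P
    have hK0 : 0 < K := by omega
    have hKr : (0 : ℝ) < K := by exact_mod_cast hK0
    obtain ⟨hθ0, hθ1⟩ := theta_lt hK κ hκ
    rw [← hθ] at hθ0 hθ1
    have hηe : η = -Real.log θ / 2 := by rw [hη, if_pos hK]
    show (Nat.card {w : Fin t → Fin K × ℤˣ // Ev D P (List.ofFn w)} : ℝ) ≤ _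
    rw [card_sum, sum_avw hK0 t fun y => if Ev D P y then 1 else 0, mul_comm]
    refine mul_le_mul_of_nonneg_right ?_ (by positivity)
    have h1 : ∀ (q : ℕ) (w₀ : List (Fin K × ℤˣ)),
        (avw (2 * q) fun y => if Ev D P (w₀ ++ y) then 1 else 0) ≤ C * θ ^ q := by
      intro q w₀
      rw [avw_two]
      refine (avp_mono q _ _ fun M => hmain n D P w₀ M).trans ?_
      rw [avp_mul, avp_exp hK0, hθ]
    have h2 : ∀ q : ℕ, θ ^ q = Real.exp (-η * (2 * q)) := by
      intro q
      rw [hηe, ← Real.rpow_natCast, Real.rpow_def_of_pos hθ0]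
      congr 1
      ring
    have h3 : ∀ q : ℕ, ∀ x : ℝ, 0 ≤ x → x ≤ 2 * q + 1 →
        C * θ ^ q ≤ C * Real.exp η * Real.exp (-(min κ η) * x) := by
      intro q x hx0 hx
      rw [mul_assoc]
      refine mul_le_mul_of_nonneg_left ?_ hC.le
      rw [h2, ← Real.exp_add]
      apply Real.exp_le_exp.mpr
      have := min_le_right κ η
      nlinarith
    rcases Nat.even_or_odd' t with ⟨q, rfl | rfl⟩
    · refine (h1 q []).trans (h3 q _ (by positivity) ?_)
      push_cast
      linarith
    · have h4 : (avw (2 * q + 1) fun y => if Ev D P y then 1 else 0) ≤ C * θ ^ q := by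
        show (∑ l : Fin K × ℤˣ, avw (2 * q) fun y => if Ev D P (l :: y) then 1 else 0) /
          (2 * K) ≤ _
        rw [div_le_iff₀ (by positivity)]
        refine (Finset.sum_le_sum fun l _ => h1 q [l]).trans ?_
        rw [Finset.sum_const, Finset.card_univ, Fintype.card_prod, Fintype.card_fin,
          nsmul_eq_mul]
        have : Fintype.card ℤˣ = 2 := by decide
        rw [this]
        push_cast
        apply le_of_eq
        ring
      refine h4.trans (h3 q _ (by positivity) ?_)
      push_cast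
      linarith

end Pool.RB
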