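import Mathlib

/-!
# Braid boxes in knot diagrams

An oriented diagram with `n` crossings and `k + 1` gates.  The gates are `k + 1` points of the
diagram which lie side by side in a disc on parallel arcs running in the same direction; a braid on
`k + 1` strands is inserted there, letter by letter.
-/

namespace Pool.RB

open LaurentPolynomial

/-- The sites through which the curves of a diagram with `n` crossings and `k + 1` gates run: the
gates `0, ..., k` and the two passages `(c, false)`, `(c, true)` through each crossing `c`. -/
abbrev Site (k n : ℕ) : Type := Fin (k + 1) ⊕ Fin n × Bool

/-- An oriented link diagram with `n` crossings and `k + 1` gates.  The gates and the passages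
through the crossings cut the diagram into arcs; every site is left by one arc and reached by one
arc. -/
structure Diagram (k n : ℕ) where
  /-- The sign of a crossing. -/
  sign : Fin n → ℤˣ
  /-- The arc which leaves the site `s` ends at the site `next s`. -/
  next : Equiv.Perm (Site k n)

/-- The ends of the arcs: `(s, true)` is the end at the site `s` of the arc which leaves `s`, and
`(s, false)` the end at `s` of the arc which arrives there. -/
abbrev Tip (k n : ℕ) : Type := Site k n × Bool

/-- Three ways to join the four ends at a crossing.  `keep`: the curves go through the two passages.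
`along`: the smoothing which follows the orientation, the arc which arrives at one passage is
joined to the arc which leaves the other one.  `turn`: the smoothing against the orientation, the
two arriving arcs are joined, and so are the two leaving arcs. -/
inductive Way
  | keep
  | along
  | turn
  deriving DecidableEq

variable {k n : ℕ}

/-- The end to which an end is joined at its site; at a gate the curve goes through. -/
def join (c : Fin n → Way) : Tip k n → Tip k n
  | (.inl a, b) => (.inl a, !b)
  | (.inr (x, i), b) => match c x with
    | .keep => (.inr (x, i), !b)
    | .along => (.inr (x, !i), !b)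
    | .turn => (.inr (x, !i), b)

namespace Diagram

/-- The other end of the arc with a given end. -/
def arc (D : Diagram k n) : Tip k n → Tip k n
  | (s, true) => (D.next s, false)
  | (s, false) => (D.next.symm s, true)

/-- The number of closed curves when the crossings are replaced by the ways `c`. -/
noncomputable def curves (D : Diagram k n) (c : Fin n → Way) : ℕ :=
  Nat.card (Quot fun p q : Tip k n => q = join c p ∨ q = D.arc p)

/-- The Kauffman bracket `∑ A ^ (#A - #B) (-A² - A⁻²) ^ (curves - 1)`, the sum running over the
states, with `A = T 1`.  In a state the crossing `x` is smoothed along the orientation if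
`s x = true` and against it if `s x = false`; for a positive crossing the smoothing along the
orientation is the `A`-smoothing, for a negative one it is the `B`-smoothing. -/
noncomputable def bracket (D : Diagram k n) : ℤ[T;T⁻¹] :=
  ∑ s : Fin n → Bool, (∏ x, T (if s x then (D.sign x : ℤ) else -(D.sign x : ℤ))) *
    (-T 2 - T (-2)) ^ (D.curves (fun x => if s x then .along else .turn) - 1)

/-- The writhe. -/
def writhe (D : Diagram k n) : ℤ := ∑ x, (D.sign x : ℤ)

/-- The normalized bracket `f = (-A³) ^ (-writhe) ⟨D⟩`. -/
noncomputable def normalized (D : Diagram k n) : ℤ[T;T⁻¹] :=
  C (((-1 : ℤˣ) ^ D.writhe : ℤˣ) : ℤ) * T (-3 * D.writhe) * D.bracket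

/-- The diagram has one component. -/
def IsKnot (D : Diagram k n) : Prop := ∀ s t, D.next.SameCycle s t

end Diagram

/-- The place of a site after a new crossing `0` has been added. -/
def up : Site k n → Site k (n + 1)
  | .inl b => .inl b
  | .inr (x, i) => .inr (x.succ, i)

/-- The end of an arc after a new crossing `0` has been added just before the gates `a`, `a + 1`:
an arc which ended at the gate `a` now ends at the passage `false` of the new crossing, an arc which
ended at the gate `a + 1` ends at its passage `true`. -/
def redirect (a : Fin k) : Site k n → Site k (n + 1)
  | .inl b => if b = a.castSucc then .inr (0, false) else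
      if b = a.succ then .inr (0, true) else .inl b
  | .inr (x, i) => .inr (x.succ, i)

/-- The end of the arc which leaves a given site, after the new crossing has been added: the new
passage `false` leads to the gate `a + 1` and the new passage `true` to the gate `a`. -/
def pushNext (σ : Equiv.Perm (Site k n)) (a : Fin k) : Site k (n + 1) → Site k (n + 1)
  | .inl b => redirect a (σ (.inl b))
  | .inr (x, i) => Fin.cases (if i then .inl a.castSucc else .inl a.succ)
      (fun y => redirect a (σ (.inr (y, i)))) x

/-- The inverse of `pushNext`. -/
def pushPrev (σ : Equiv.Perm (Site k n)) (a : Fin k) : Site k (n + 1) → Site k (n + 1)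
  | .inl b => if b = a.castSucc then .inr (0, true) else
      if b = a.succ then .inr (0, false) else up (σ.symm (.inl b))
  | .inr (x, i) => Fin.cases (up (σ.symm (.inl (if i then a.succ else a.castSucc))))
      (fun y => up (σ.symm (.inr (y, i)))) x

theorem push_left (σ : Equiv.Perm (Site k n)) (a : Fin k) (s : Site k (n + 1)) :
    pushPrev σ a (pushNext σ a s) = s := by
  have key : ∀ t : Site k n, pushPrev σ a (redirect a (σ t)) = up t := by
    intro t
    have ht : σ.symm (σ t) = t := σ.symm_apply_apply t
    rcases h : σ t with b | ⟨y, j⟩
    · rw [h] at ht
      by_cases h1 : b = a.castSucc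
      · subst h1
        simp [redirect, pushPrev, ht]
      · by_cases h2 : b = a.succ
        · subst h2
          simp [redirect, pushPrev, ht, h1]
        · simp [redirect, pushPrev, ht, h1, h2]
    · rw [h] at ht
      simp [redirect, pushPrev, ht]
  have hne : a.succ ≠ a.castSucc := (Fin.castSucc_lt_succ (i := a)).ne'
  rcases s with b | ⟨x, i⟩
  · exact key (.inl b)
  · refine Fin.cases ?_ (fun y => ?_) x
    · cases i
      · simp [pushNext, pushPrev, hne]
      · simp [pushNext, pushPrev]
    · exact key (.inr (y, i))

theorem push_right (σ : Equiv.Perm (Site k n)) (a : Fin k) (s : Site k (n + 1)) :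
    pushNext σ a (pushPrev σ a s) = s := by
  have key : ∀ t : Site k n, pushNext σ a (up t) = redirect a (σ t) := by
    rintro (b | ⟨y, j⟩)
    · rfl
    · rfl
  have hne : a.succ ≠ a.castSucc := (Fin.castSucc_lt_succ (i := a)).ne'
  rcases s with b | ⟨x, i⟩
  · by_cases h1 : b = a.castSucc
    · subst h1
      simp [pushPrev, pushNext]
    · by_cases h2 : b = a.succ
      · subst h2
        simp [pushPrev, pushNext, h1]
      · have h3 : pushPrev σ a (.inl b) = up (σ.symm (.inl b)) := by simp [pushPrev, h1, h2]
        rw [h3, key, Equiv.apply_symm_apply]
        simp [redirect, h1, h2]
  · refine Fin.cases ?_ (fun y => ?_) x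
    · have h3 : pushPrev σ a (.inr (0, i)) =
          up (σ.symm (.inl (if i then a.succ else a.castSucc))) := rfl
      rw [h3, key, Equiv.apply_symm_apply]
      cases i <;> simp [redirect, hne]
    · have h3 : pushPrev σ a (.inr (y.succ, i)) = up (σ.symm (.inr (y, i))) := rfl
      rw [h3, key, Equiv.apply_symm_apply]
      rfl

namespace Diagram

/-- Insert the letter `σ_a ^ ε` of the braid group on `k + 1` strands: a new crossing `0` of sign
`ε` between the strands which arrive at the gates `a` and `a + 1`. -/
def push (D : Diagram k n) (a : Fin k) (ε : ℤˣ) : Diagram k (n + 1) where
  sign := Fin.cons ε D.sign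
  next :=
    { toFun := pushNext D.next a
      invFun := pushPrev D.next a
      left_inv := push_left D.next a
      right_inv := push_right D.next a }

/-- Insert a braid word: a list of letters `(a, ε)`, standing for `σ_a ^ ε`. -/
def insert (D : Diagram k n) : (w : List (Fin k × ℤˣ)) → Diagram k (n + w.length)
  | [] => D
  | l :: w => (insert D w).push l.1 l.2

end Diagram

end Pool.RB
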