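import Pool.Agent.RB.St

/-!
# RB: an equivariant choice of lines
-/

set_option autoImplicit false

namespace Pool.RB

open Matrix LaurentPolynomial

open scoped Classical MatrixGroups

theorem Equi_mz_mul (g h : SL(2, ℤ)) : mz (g * h) = mz g * mz h := by
  unfold mz
  rw [Matrix.SpecialLinearGroup.coe_mul]
  ext i j
  simp [Matrix.mul_apply]

theorem Equi_mz_one : mz 1 = 1 := by
  unfold mz
  ext i j
  simp [Matrix.one_apply]

theorem Equi_mz_inv_mul (g : SL(2, ℤ)) : mz g⁻¹ * mz g = 1 := by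
  rw [← Equi_mz_mul, inv_mul_cancel, Equi_mz_one]

theorem Equi_mz_mul_inv (g : SL(2, ℤ)) : mz g * mz g⁻¹ = 1 := by
  rw [← Equi_mz_mul, mul_inv_cancel, Equi_mz_one]

theorem Equi_ne {g : SL(2, ℤ)} {v : Fin 2 → ℂ} (hv : v ≠ 0) : mz g *ᵥ v ≠ 0 := by
  intro h
  apply hv
  have h1 : mz g⁻¹ *ᵥ (mz g *ᵥ v) = v := by
    rw [Matrix.mulVec_mulVec, Equi_mz_inv_mul, Matrix.one_mulVec]
  rw [← h1, h, Matrix.mulVec_zero]

theorem thm_Equi (h1 : St_Rho) (h2 : St_Line) : St_Equi := by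
  intro V _ _ e f hTL
  obtain ⟨r1, r2, -, r4⟩ := h1 V e f hTL
  have hline := h2 V e f hTL
  -- the action
  set R : SL(2, ℤ) → (V →ₗ[ℂ] V) := fun h => rho e f (mz h) with hR
  have hR1 : R 1 = 1 := by
    simp only [hR]
    rw [Equi_mz_one, r1]
  have hRmul : ∀ g h, R (g * h) = R g * R h := by
    intro g h
    simp only [hR]
    rw [Equi_mz_mul, r2]
  have act1 : ∀ T : Submodule ℂ V, T.comap (R 1) = T := by
    intro T
    rw [hR1]
    ext x
    simp
  have act2 : ∀ (T : Submodule ℂ V) (g h : SL(2, ℤ)),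
      (T.comap (R g)).comap (R h) = T.comap (R (g * h)) := by
    intro T g h
    rw [hRmul]
    ext x
    simp [Submodule.mem_comap]
  -- representatives
  let st : Setoid (Submodule ℂ V) :=
    { r := fun T T' => ∃ h : SL(2, ℤ), T' = T.comap (R h)
      iseqv := by
        refine ⟨fun T => ⟨1, (act1 T).symm⟩, ?_, ?_⟩
        · rintro T T' ⟨h, rfl⟩
          refine ⟨h⁻¹, ?_⟩
          rw [act2, mul_inv_cancel, act1]
        · rintro T T' T'' ⟨h, rfl⟩ ⟨g, rfl⟩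
          exact ⟨h * g, act2 T h g⟩ }
  let rep : Submodule ℂ V → Submodule ℂ V := fun T => (Quotient.mk st T).out
  have hrep : ∀ T, ∃ g : SL(2, ℤ), T = (rep T).comap (R g) := by
    intro T
    have h3 : st.r (rep T) T := Quotient.exact (Quotient.out_eq (Quotient.mk st T))
    exact h3
  choose gg hgg using hrep
  have hrep2 : ∀ (T : Submodule ℂ V) (h : SL(2, ℤ)), rep (T.comap (R h)) = rep T := by
    intro T h
    have h3 : (Quotient.mk st (T.comap (R h))) = Quotient.mk st T :=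
      (Quotient.sound (s := st) ⟨h, rfl⟩).symm
    show (Quotient.mk st (T.comap (R h))).out = (Quotient.mk st T).out
    rw [h3]
  -- the vectors
  let v0 : Submodule ℂ V → (Fin 2 → ℂ) := fun T =>
    if h : ¬ Stable e f T then (hline T h).choose else 0
  have hv0 : ∀ T, ¬ Stable e f T → v0 T ≠ 0 ∧ ∀ h : SL(2, ℤ),
      (∀ x ∈ T, R h x ∈ T) → ∃ c : ℂ, mz h *ᵥ v0 T = c • v0 T := by
    intro T hT
    have h3 : v0 T = (hline T hT).choose := by
      simp only [v0]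
      rw [dif_pos hT]
    rw [h3]
    exact (hline T hT).choose_spec
  refine ⟨fun T => mz (gg T)⁻¹ *ᵥ v0 (rep T), ?_⟩
  intro T hT
  have hT0 : ¬ Stable e f (rep T) := by
    intro h3
    apply hT
    rw [hgg T]
    exact (r4 (rep T) (gg T)).2 h3
  obtain ⟨hne, hst⟩ := hv0 (rep T) hT0
  refine ⟨Equi_ne hne, ?_⟩
  intro h
  change ∃ c : ℂ, c ≠ 0 ∧ mz (gg (T.comap (R h)))⁻¹ *ᵥ v0 (rep (T.comap (R h))) =
    c • (mz h⁻¹ *ᵥ (mz (gg T)⁻¹ *ᵥ v0 (rep T)))
  rw [hrep2]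
  set g := gg T with hg
  set g' := gg (T.comap (R h)) with hg'
  have e1 : T = (rep T).comap (R g) := hgg T
  have e2 : T.comap (R h) = (rep T).comap (R g') := by
    have h3 := hgg (T.comap (R h))
    rw [hrep2] at h3
    exact h3
  -- the stabiliser
  have e3 : (rep T).comap (R (g * h)) = (rep T).comap (R g') := by
    rw [← act2, ← e1, e2]
  have e4 : (rep T).comap (R (g' * (g * h)⁻¹)) = rep T := by
    rw [← act2, ← e3, act2, mul_inv_cancel, act1]
  have e5 : ∀ x ∈ rep T, R (g' * (g * h)⁻¹) x ∈ rep T := by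
    intro x hx
    rw [← e4] at hx
    exact hx
  obtain ⟨c, hc⟩ := hst _ e5
  have hc0 : c ≠ 0 := by
    rintro rfl
    rw [zero_smul] at hc
    exact Equi_ne hne hc
  refine ⟨c⁻¹, inv_ne_zero hc0, ?_⟩
  have e6 : mz (g * h)⁻¹ *ᵥ v0 (rep T) = c • (mz g'⁻¹ *ᵥ v0 (rep T)) := by
    have h3 : mz (g * h)⁻¹ = mz g'⁻¹ * mz (g' * (g * h)⁻¹) := by
      rw [← Equi_mz_mul]
      congr 1
      group
    rw [h3, ← Matrix.mulVec_mulVec, hc, Matrix.mulVec_smul]
  have e7 : mz h⁻¹ *ᵥ (mz g⁻¹ *ᵥ v0 (rep T)) = mz (g * h)⁻¹ *ᵥ v0 (rep T) := by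
    rw [Matrix.mulVec_mulVec, ← Equi_mz_mul]
    congr 2
    group
  rw [e7, e6, smul_smul, inv_mul_cancel₀ hc0, one_smul]

end Pool.RB
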