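import Pool.Agent.RB.Stmts

/-! Insertion theorem, module Three: the three-term relation. -/

set_option autoImplicit false

namespace Pool.RB

variable {K n : ℕ}

/-- two relations with the same classes -/
private theorem three_congr {X : Type} {r s : X → X → Prop}
    (h1 : ∀ p q, r p q → Quot.mk s p = Quot.mk s q)
    (h2 : ∀ p q, s p q → Quot.mk r p = Quot.mk r q) :
    Nat.card (Quot r) = Nat.card (Quot s) := by
  refine Nat.card_congr
    { toFun := Quot.lift (Quot.mk s) h1
      invFun := Quot.lift (Quot.mk r) h2
      left_inv := fun k => ?_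
      right_inv := fun k => ?_ }
  · induction k using Quot.ind; rfl
  · induction k using Quot.ind; rfl

/-- a relation with one more pair -/
private def three_add {X : Type} (r : X → X → Prop) (a b : X) : X → X → Prop :=
  fun p q => r p q ∨ (p = a ∧ q = b)

private theorem three_same {X : Type} (r : X → X → Prop) (a b : X)
    (h : Quot.mk r a = Quot.mk r b) :
    Nat.card (Quot (three_add r a b)) = Nat.card (Quot r) := by
  refine three_congr ?_ ?_
  · rintro p q (h1 | ⟨rfl, rfl⟩)
    · exact Quot.sound h1
    · exact h
  · intro p q h1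
    exact Quot.sound (Or.inl h1)

private theorem three_diff {X : Type} [Finite X] (r : X → X → Prop) (a b : X)
    (h : Quot.mk r a ≠ Quot.mk r b) :
    Nat.card (Quot (three_add r a b)) + 1 = Nat.card (Quot r) := by
  classical
  have hfin : Finite (Quot r) := Finite.of_surjective (Quot.mk r) Quot.mk_surjective
  let g : X → {k : Quot r // k ≠ Quot.mk r b} := fun x =>
    if hx : Quot.mk r x = Quot.mk r b then ⟨Quot.mk r a, h⟩ else ⟨Quot.mk r x, hx⟩
  have hg : ∀ p q, three_add r a b p q → g p = g q := by
    rintro p q (h1 | ⟨rfl, rfl⟩)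
    · have h2 : Quot.mk r p = Quot.mk r q := Quot.sound h1
      simp only [g, h2]
    · simp only [g]
      rw [dif_neg h]
      simp
  let φ : Quot r → Quot (three_add r a b) :=
    Quot.lift (Quot.mk _) fun p q h1 => Quot.sound (Or.inl h1)
  have hφ : φ (Quot.mk r a) = φ (Quot.mk r b) := Quot.sound (Or.inr ⟨rfl, rfl⟩)
  let e : Quot (three_add r a b) ≃ {k : Quot r // k ≠ Quot.mk r b} :=
    { toFun := Quot.lift g hg
      invFun := fun k => φ k.1
      left_inv := by
        intro k
        induction k using Quot.ind with
        | mk x =>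
          change φ (g x).1 = φ (Quot.mk r x)
          simp only [g]
          by_cases hx : Quot.mk r x = Quot.mk r b
          · rw [dif_pos hx, hx]
            exact hφ
          · rw [dif_neg hx]
      right_inv := by
        rintro ⟨k, hk⟩
        induction k using Quot.ind with
        | mk x =>
          change g x = ⟨Quot.mk r x, hk⟩
          simp only [g]
          rw [dif_neg hk] }
  rw [Nat.card_congr e, ← Nat.card_congr (Equiv.optionSubtypeNe (Quot.mk r b)),
    Finite.card_option]

/-- two pairs inside the classes -/
private theorem three_two_same {X : Type} (r : X → X → Prop) (a b c d : X)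
    (h1 : Quot.mk r a = Quot.mk r b) (h2 : Quot.mk r c = Quot.mk r d) :
    Nat.card (Quot (three_add (three_add r a b) c d)) = Nat.card (Quot r) := by
  rw [three_same, three_same _ _ _ h1]
  exact congrArg (Quot.lift (Quot.mk (three_add r a b)) fun p q h => Quot.sound (Or.inl h)) h2

/-- two pairs which join the same two classes -/
private theorem three_two_diff {X : Type} [Finite X] (r : X → X → Prop) (a b c d : X)
    (h1 : Quot.mk r a ≠ Quot.mk r b)
    (h2 : (Quot.mk r c = Quot.mk r a ∧ Quot.mk r d = Quot.mk r b) ∨
      (Quot.mk r c = Quot.mk r b ∧ Quot.mk r d = Quot.mk r a)) :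
    Nat.card (Quot (three_add (three_add r a b) c d)) + 1 = Nat.card (Quot r) := by
  rw [three_same, three_diff _ _ _ h1]
  let φ : Quot r → Quot (three_add r a b) :=
    Quot.lift (Quot.mk _) fun p q h => Quot.sound (Or.inl h)
  have hφ : φ (Quot.mk r a) = φ (Quot.mk r b) := Quot.sound (Or.inr ⟨rfl, rfl⟩)
  change φ (Quot.mk r c) = φ (Quot.mk r d)
  rcases h2 with ⟨h3, h4⟩ | ⟨h3, h4⟩
  · rw [h3, h4, hφ]
  · rw [h3, h4, hφ]

/-- the joins away from the crossing `x` -/
private def three_mu (c : Fin n → Way) (x : Fin n) : Tip K n → Tip K n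
  | (.inl a, b) => (.inl a, !b)
  | (.inr (y, i), b) => if y = x then (.inr (y, i), b) else join c (.inr (y, i), b)

private theorem three_mu_at (c : Fin n → Way) (x : Fin n) (i b : Bool) :
    three_mu c x ((.inr (x, i), b) : Tip K n) = (.inr (x, i), b) := by
  simp [three_mu]

private theorem three_join_join (c : Fin n → Way) (y : Fin n) (i b : Bool) :
    join c (join c ((.inr (y, i), b) : Tip K n)) = (.inr (y, i), b) := by
  cases h : c y <;> simp [join, h]

private theorem three_join_fst (c : Fin n → Way) (y : Fin n) (i b : Bool) :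
    ∃ i' b', join c ((.inr (y, i), b) : Tip K n) = (.inr (y, i'), b') := by
  cases h : c y <;> simp [join, h]

private theorem three_join_ne (c : Fin n → Way) (y : Fin n) (i b : Bool) :
    join c ((.inr (y, i), b) : Tip K n) ≠ (.inr (y, i), b) := by
  cases h : c y <;> simp [join, h]

private theorem three_mu_mu (c : Fin n → Way) (x : Fin n) (p : Tip K n) :
    three_mu c x (three_mu c x p) = p := by
  rcases p with ⟨a | ⟨y, i⟩, b⟩
  · simp [three_mu]
  · by_cases h : y = x
    · subst h
      rw [three_mu_at, three_mu_at]
    · have h1 : three_mu c x ((.inr (y, i), b) : Tip K n) = join c (.inr (y, i), b) := by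
        simp [three_mu, h]
      obtain ⟨i', b', h2⟩ := three_join_fst (K := K) c y i b
      have h3 : three_mu c x ((.inr (y, i'), b') : Tip K n) = join c (.inr (y, i'), b') := by
        simp [three_mu, h]
      rw [h1, h2, h3, ← h2, three_join_join]

private theorem three_fixed (c : Fin n → Way) (x : Fin n) (p : Tip K n)
    (hp : three_mu c x p = p) : ∃ i b, p = (.inr (x, i), b) := by
  rcases p with ⟨a | ⟨y, i⟩, b⟩
  · simp [three_mu] at hp
  · by_cases h : y = x
    · subst h
      exact ⟨i, b, rfl⟩
    · exfalso
      have h1 : three_mu c x ((.inr (y, i), b) : Tip K n) = join c (.inr (y, i), b) := by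
        simp [three_mu, h]
      rw [h1] at hp
      exact three_join_ne c y i b hp

private theorem three_arc_arc (D : Diagram K n) (p : Tip K n) : D.arc (D.arc p) = p := by
  rcases p with ⟨s, b⟩
  cases b
  · simp [Diagram.arc]
  · simp [Diagram.arc]

private theorem three_arc_ne (D : Diagram K n) (p : Tip K n) : D.arc p ≠ p := by
  rcases p with ⟨s, b⟩
  cases b
  · simp [Diagram.arc]
  · simp [Diagram.arc]

/-- the relation without the crossing `x` -/
private def three_rel (D : Diagram K n) (c : Fin n → Way) (x : Fin n) : Tip K n → Tip K n → Prop :=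
  fun p q => q = three_mu c x p ∨ q = D.arc p

/-- the first joined pair -/
private def three_u (x : Fin n) : Way → (Tip K n × Tip K n) × (Tip K n × Tip K n)
  | .keep => (((.inr (x, false), false), (.inr (x, false), true)),
      ((.inr (x, true), false), (.inr (x, true), true)))
  | .along => (((.inr (x, false), false), (.inr (x, true), true)),
      ((.inr (x, true), false), (.inr (x, false), true)))
  | .turn => (((.inr (x, false), false), (.inr (x, true), false)),
      ((.inr (x, false), true), (.inr (x, true), true)))

private theorem three_curves (D : Diagram K n) (c : Fin n → Way) (x : Fin n) (v : Way) :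
    D.curves (Function.update c x v) = Nat.card (Quot (three_add (three_add (three_rel D c x)
      (three_u x v).1.1 (three_u x v).1.2) (three_u x v).2.1 (three_u x v).2.2)) := by
  unfold Diagram.curves
  refine three_congr ?_ ?_
  · rintro p q (h | h)
    · subst h
      rcases p with ⟨a | ⟨y, i⟩, b⟩
      · exact Quot.sound (Or.inl (Or.inl (Or.inl rfl)))
      · by_cases hy : y = x
        · subst hy
          cases v <;> cases i <;> cases b <;>
            simp only [join, Function.update_self, three_u, Bool.not_true, Bool.not_false]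
          · exact Quot.sound (Or.inl (Or.inr ⟨rfl, rfl⟩))
          · exact Eq.symm (Quot.sound (Or.inl (Or.inr ⟨rfl, rfl⟩)))
          · exact Quot.sound (Or.inr ⟨rfl, rfl⟩)
          · exact Eq.symm (Quot.sound (Or.inr ⟨rfl, rfl⟩))
          · exact Quot.sound (Or.inl (Or.inr ⟨rfl, rfl⟩))
          · exact Eq.symm (Quot.sound (Or.inr ⟨rfl, rfl⟩))
          · exact Quot.sound (Or.inr ⟨rfl, rfl⟩)
          · exact Eq.symm (Quot.sound (Or.inl (Or.inr ⟨rfl, rfl⟩)))
          · exact Quot.sound (Or.inl (Or.inr ⟨rfl, rfl⟩))
          · exact Quot.sound (Or.inr ⟨rfl, rfl⟩)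
          · exact Eq.symm (Quot.sound (Or.inl (Or.inr ⟨rfl, rfl⟩)))
          · exact Eq.symm (Quot.sound (Or.inr ⟨rfl, rfl⟩))
        · refine Quot.sound (Or.inl (Or.inl (Or.inl ?_)))
          simp [three_mu, hy, join]
    · exact Quot.sound (Or.inl (Or.inl (Or.inr h)))
  · rintro p q (((h | h) | ⟨rfl, rfl⟩) | ⟨rfl, rfl⟩)
    · subst h
      rcases p with ⟨a | ⟨y, i⟩, b⟩
      · exact Quot.sound (Or.inl rfl)
      · by_cases hy : y = x
        · subst hy
          rw [three_mu_at]
        · refine Quot.sound (Or.inl ?_)
          simp [three_mu, hy, join]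
    · exact Quot.sound (Or.inr h)
    · refine Quot.sound (Or.inl ?_)
      cases v <;> simp [three_u, join]
    · refine Quot.sound (Or.inl ?_)
      cases v <;> simp [three_u, join]

private theorem three_sum (a b c r : ℕ)
    (h : (a = r ∧ b + 1 = r ∧ c + 1 = r) ∨ (b = r ∧ a + 1 = r ∧ c + 1 = r) ∨
      (c = r ∧ a + 1 = r ∧ b + 1 = r)) : (-2 : ℤ) ^ a + (-2) ^ b + (-2) ^ c = 0 := by
  rcases h with ⟨h1, h2, h3⟩ | ⟨h1, h2, h3⟩ | ⟨h1, h2, h3⟩
  · have : c = b := by omega
    subst this
    rw [h1, ← h2, pow_succ]; ring
  · have : c = a := by omega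
    subst this
    rw [h1, ← h2, pow_succ]; ring
  · have : b = a := by omega
    subst this
    rw [h1, ← h2, pow_succ]; ring

theorem thm_Three (h : St_Pair) : St_Three := by
  intro K n D c x
  rw [three_curves D c x .keep, three_curves D c x .along, three_curves D c x .turn]
  have hfin : Finite (Tip K n) := inferInstance
  have key := h (Tip K n) (three_mu c x) D.arc (three_mu_mu c x) (three_arc_arc D)
    (three_arc_ne D)
  -- the classes
  have key2 : ∀ i b, ∃ i' b', ((i', b') : Bool × Bool) ≠ (i, b) ∧
      Quot.mk (three_rel D c x) (.inr (x, i'), b') = Quot.mk (three_rel D c x) (.inr (x, i), b) ∧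
      ∀ i'' b'', Quot.mk (three_rel D c x) (.inr (x, i''), b'') =
        Quot.mk (three_rel D c x) (.inr (x, i), b) →
        ((i'', b'') : Bool × Bool) = (i, b) ∨ ((i'', b'') : Bool × Bool) = (i', b') := by
    intro i b
    obtain ⟨y, hy1, hy2, hy3, hy4⟩ := key (.inr (x, i), b) (three_mu_at c x i b)
    obtain ⟨i', b', rfl⟩ := three_fixed c x y hy2
    refine ⟨i', b', ?_, hy3, ?_⟩
    · intro he
      apply hy1
      rw [Prod.mk.injEq] at he
      rw [he.1, he.2]
    · intro i'' b'' he
      rcases hy4 (.inr (x, i''), b'') (three_mu_at c x i'' b'') he with h1 | h1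
      · left
        simpa using h1
      · right
        simpa using h1
  set r := three_rel D c x with hr
  set f : Bool → Bool → Quot r := fun i b => Quot.mk r (.inr (x, i), b) with hf
  have key3 : ∀ i b, ∃ i' b', ((i', b') : Bool × Bool) ≠ (i, b) ∧ f i' b' = f i b ∧
      ∀ i'' b'', f i'' b'' = f i b → ((i'', b'') : Bool × Bool) = (i, b) ∨
        ((i'', b'') : Bool × Bool) = (i', b') := key2
  have main : (f false false = f false true ∧ f true false = f true true ∧
      f false false ≠ f true false) ∨
      (f false false = f true true ∧ f true false = f false true ∧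
      f false false ≠ f true false) ∨
      (f false false = f true false ∧ f false true = f true true ∧
      f false false ≠ f false true) := by
    obtain ⟨i, b, h1, h2, h3⟩ := key3 false false
    cases i <;> cases b
    · exact absurd rfl h1
    · -- p0 ~ q0
      left
      obtain ⟨i, b, g1, g2, g3⟩ := key3 true false
      have hne : f false false ≠ f true false := by
        intro he
        rcases h3 true false he.symm with h4 | h4 <;> simp at h4
      cases i <;> cases b
      · exact absurd g2 hne
      · exact absurd (h2.symm.trans g2) hne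
      · exact absurd rfl g1
      · exact ⟨h2.symm, g2.symm, hne⟩
    · -- p0 ~ p1
      right; right
      obtain ⟨i, b, g1, g2, g3⟩ := key3 false true
      have hne : f false false ≠ f false true := by
        intro he
        rcases h3 false true he.symm with h4 | h4 <;> simp at h4
      cases i <;> cases b
      · exact absurd g2 hne
      · exact absurd rfl g1
      · exact absurd (h2.symm.trans g2) hne
      · exact ⟨h2.symm, g2.symm, hne⟩
    · -- p0 ~ q1
      right; left
      obtain ⟨i, b, g1, g2, g3⟩ := key3 true false
      have hne : f false false ≠ f true false := by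
        intro he
        rcases h3 true false he.symm with h4 | h4 <;> simp at h4
      cases i <;> cases b
      · exact absurd g2 hne
      · exact ⟨h2.symm, g2.symm, hne⟩
      · exact absurd rfl g1
      · exact absurd (h2.symm.trans g2) hne
  refine three_sum _ _ _ (Nat.card (Quot r)) ?_
  simp only [three_u]
  rcases main with ⟨m1, m2, m3⟩ | ⟨m1, m2, m3⟩ | ⟨m1, m2, m3⟩
  · left
    refine ⟨three_two_same _ _ _ _ _ m1 m2, ?_, ?_⟩
    · exact three_two_diff _ _ _ _ _ (fun h => m3 (h.trans m2.symm)) (Or.inr ⟨m2, m1.symm⟩)
    · exact three_two_diff _ _ _ _ _ m3 (Or.inl ⟨m1.symm, m2.symm⟩)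
  · right; left
    refine ⟨three_two_same _ _ _ _ _ m1 m2, ?_, ?_⟩
    · exact three_two_diff _ _ _ _ _ (fun h => m3 (h.trans m2.symm)) (Or.inr ⟨m2, m1.symm⟩)
    · exact three_two_diff _ _ _ _ _ m3 (Or.inr ⟨m2.symm, m1.symm⟩)
  · right; right
    refine ⟨three_two_same _ _ _ _ _ m1 m2, ?_, ?_⟩
    · exact three_two_diff _ _ _ _ _ m3 (Or.inl ⟨m1.symm, m2.symm⟩)
    · exact three_two_diff _ _ _ _ _ (fun h => m3 (h.trans m2.symm)) (Or.inl ⟨m1.symm, m2⟩)

end Pool.RB
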