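import Pool.Agent.RB.St
import Pool.Agent.RB.States

/-!
# RB, module FUN: the functional of the outside
-/

namespace Pool.RB

open Matrix LaurentPolynomial

open scoped Classical MatrixGroups

variable {K n : ℕ}

private theorem Fun_ev_T (A : ℂˣ) (k : ℤ) : ev A (T k) = ((A ^ k : ℂˣ) : ℂ) := by
  unfold ev
  rw [LaurentPolynomial.eval₂_T]

private theorem Fun_pow_two (A : ℂˣ) (hA : (A : ℂ) ^ 2 = Complex.I) :
    ((A ^ (2 : ℤ) : ℂˣ) : ℂ) = Complex.I := by
  rw [← hA]
  norm_cast

private theorem Fun_pow_neg_two (A : ℂˣ) (hA : (A : ℂ) ^ 2 = Complex.I) :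
    ((A ^ (-2 : ℤ) : ℂˣ) : ℂ) = -Complex.I := by
  rw [_root_.zpow_neg, Units.val_inv_eq_inv_val, Fun_pow_two A hA, Complex.inv_I]

private theorem Fun_ev_zero (A : ℂˣ) (hA : (A : ℂ) ^ 2 = Complex.I) :
    ev A (-T 2 - T (-2)) = 0 := by
  rw [map_sub, map_neg, Fun_ev_T, Fun_ev_T, Fun_pow_two A hA, Fun_pow_neg_two A hA]
  ring

private theorem Fun_ways (b : Bool) (s : Fin n → Bool) :
    ways (Fin.cons b s : Fin (n + 1) → Bool) =
      Fin.cons (if b then Way.along else Way.turn) (ways s) := by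
  funext x
  refine Fin.cases ?_ (fun y => ?_) x
  · rfl
  · rfl

private theorem Fun_wt (A : ℂˣ) (D : Diagram K n) (a : Fin K) (ε : ℤˣ) (b : Bool)
    (s : Fin n → Bool) : wt A (D.push a ε) (Fin.cons b s : Fin (n + 1) → Bool) =
      ((A ^ (if b then (ε : ℤ) else -(ε : ℤ)) : ℂˣ) : ℂ) * wt A D s := by
  unfold wt
  rw [Fin.prod_univ_succ]
  rfl

/-- the trace for the trivial pairing -/
private theorem Fun_trace_pid (h : (MP (pid : Pg K)) = 1) (D : Diagram K n) (c : Fin n → Way) :
    (MP (pid : Pg K) * theta D c).trace = 2 ^ D.curves c := by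
  rw [h, one_mul, thm_Close]

private theorem Fun_bracket (h : (MP (pid : Pg K)) = 1) (D : Diagram K n) (A : ℂˣ)
    (hA : (A : ℂ) ^ 2 = Complex.I) : ev A D.bracket = phi A D pid := by
  unfold Diagram.bracket phi
  rw [map_sum]
  refine Finset.sum_congr rfl fun s _ => ?_
  rw [map_mul, map_pow, Fun_ev_zero A hA, map_prod]
  have h5 : (∏ x, ev A (T (if s x then (D.sign x : ℤ) else -(D.sign x : ℤ)))) = wt A D s := by
    unfold wt
    refine Finset.prod_congr rfl fun x _ => ?_
    rw [Fun_ev_T]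
  rw [h5, Fun_trace_pid h]
  have h4 : D.curves (fun x => if s x then Way.along else Way.turn) = D.curves (ways s) := rfl
  rw [h4]
  have h6 := curves_pos D (ways s)
  obtain ⟨m, hm⟩ : ∃ m, D.curves (ways s) = m + 1 := ⟨D.curves (ways s) - 1, by omega⟩
  rw [hm, Nat.add_sub_cancel]
  congr 1
  rcases Nat.eq_zero_or_pos m with h7 | h7
  · rw [h7, pow_zero, if_pos (by norm_num)]
  · rw [zero_pow (by omega), if_neg]
    intro h8
    have h9 : (2 : ℕ) ^ 1 < 2 ^ (m + 1) := Nat.pow_lt_pow_right (by norm_num) (by omega)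
    rw [h8] at h9
    norm_num at h9

/-- exchanging the two colours -/
private theorem Fun_theta_not (D : Diagram K n) (c : Fin n → Way) (x y : Col K) :
    theta D c (fun i => !x i) (fun i => !y i) = theta D c x y := by
  unfold theta
  refine Nat.card_congr
    { toFun := fun h => ⟨fun p => !h.1 p, ?_, ?_, ?_, ?_⟩
      invFun := fun h => ⟨fun p => !h.1 p, ?_, ?_, ?_, ?_⟩
      left_inv := ?_
      right_inv := ?_ }
  · intro p
    exact congrArg (fun t => !t) (h.2.1 p)
  · intro k i b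
    exact congrArg (fun t => !t) (h.2.2.1 k i b)
  · intro a
    exact (congrArg (fun t => !t) (h.2.2.2.1 a)).trans (Bool.not_not _)
  · intro a
    exact (congrArg (fun t => !t) (h.2.2.2.2 a)).trans (Bool.not_not _)
  · intro p
    exact congrArg (fun t => !t) (h.2.1 p)
  · intro k i b
    exact congrArg (fun t => !t) (h.2.2.1 k i b)
  · intro a
    exact congrArg (fun t => !t) (h.2.2.2.1 a)
  · intro a
    exact congrArg (fun t => !t) (h.2.2.2.2 a)
  · intro h
    apply Subtype.ext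
    funext p
    exact Bool.not_not _
  · intro h
    apply Subtype.ext
    funext p
    exact Bool.not_not _

private theorem Fun_MP_not (π : Pg K) (x y : Col K) :
    MP π (fun i => !x i) (fun i => !y i) = MP π x y := by
  have h1 : ∀ p : Gate K, gc (fun i => !x i) (fun i => !y i) p = !gc x y p := by
    rintro ⟨i, b⟩
    cases b
    · rfl
    · rfl
  unfold MP
  refine if_congr ?_ rfl rfl
  constructor
  · intro h p
    have h2 := h p
    rw [h1, h1] at h2
    exact Bool.not_inj h2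
  · intro h p
    rw [h1, h1, h p]

/-- the trace of a pairing and a diagram is even -/
private theorem Fun_even (π : Pg K) (D : Diagram K n) (c : Fin n → Way) :
    (MP π * theta D c).trace ≠ 1 := by
  intro h
  have h1 : ((MP π * theta D c).trace : ZMod 2) =
      ∑ q : Col K × Col K, ((MP π q.1 q.2 * theta D c q.2 q.1 : ℕ) : ZMod 2) := by
    rw [Fintype.sum_prod_type, Matrix.trace, Nat.cast_sum]
    refine Finset.sum_congr rfl fun x _ => ?_
    rw [Matrix.diag_apply, Matrix.mul_apply, Nat.cast_sum]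
  have h2 : ∑ q : Col K × Col K, ((MP π q.1 q.2 * theta D c q.2 q.1 : ℕ) : ZMod 2) = 0 := by
    refine Finset.sum_involution
      (fun q _ => ((fun i => !q.1 i), (fun i => !q.2 i))) ?_ ?_ ?_ ?_
    · intro q _
      show ((MP π q.1 q.2 * theta D c q.2 q.1 : ℕ) : ZMod 2) +
        ((MP π (fun i => !q.1 i) (fun i => !q.2 i) *
          theta D c (fun i => !q.2 i) (fun i => !q.1 i) : ℕ) : ZMod 2) = 0
      rw [Fun_MP_not, Fun_theta_not]
      exact CharTwo.add_self_eq_zero _
    · intro q _ _ h3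
      have h4 := congrFun (congrArg Prod.fst h3) 0
      have h5 : (!q.1 0) = q.1 0 := h4
      cases h6 : q.1 0
      · rw [h6] at h5
        exact absurd h5 (by decide)
      · rw [h6] at h5
        exact absurd h5 (by decide)
    · intro q _
      exact Finset.mem_univ _
    · intro q _
      apply Prod.ext
      · funext i
        exact Bool.not_not _
      · funext i
        exact Bool.not_not _
  rw [h, h2] at h1
  exact absurd h1 (by decide)

private theorem Fun_unit (ε : ℤˣ) : ε = 1 ∨ ε = -1 := Int.units_eq_one_or ε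

/-- `A ^ (-ε) = A ^ ε * (-(ε i))` -/
private theorem Fun_neg (A : ℂˣ) (hA : (A : ℂ) ^ 2 = Complex.I) (ε : ℤˣ) :
    ((A ^ (-(ε : ℤ)) : ℂˣ) : ℂ) =
      ((A ^ (ε : ℤ) : ℂˣ) : ℂ) * (-(((ε : ℤ) : ℂ) * Complex.I)) := by
  have h1 : ((A ^ (-(ε : ℤ)) : ℂˣ) : ℂ) =
      ((A ^ (ε : ℤ) : ℂˣ) : ℂ) * ((A ^ (-2 * (ε : ℤ)) : ℂˣ) : ℂ) := by
    rw [← Units.val_mul, ← _root_.zpow_add]
    congr 2
    ring
  rw [h1]
  congr 1
  rcases Fun_unit ε with h | h
  · subst h
    have h2 : (-2 * ((1 : ℤˣ) : ℤ)) = -2 := by norm_num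
    rw [h2, Fun_pow_neg_two A hA]
    push_cast
    ring
  · subst h
    have h2 : (-2 * ((-1 : ℤˣ) : ℤ)) = 2 := by norm_num
    rw [h2, Fun_pow_two A hA]
    push_cast
    ring

private theorem Fun_along (D : Diagram K n) (a : Fin K) (ε : ℤˣ) (π : Pg K)
    (s : Fin n → Bool) :
    (MP π * theta (D.push a ε) (ways (Fin.cons true s : Fin (n + 1) → Bool))).trace =
      (MP π * theta D (ways s)).trace := by
  rw [Fun_ways, if_pos rfl, thm_Push]
  show (MP π * ((1 : Matrix (Col K) (Col K) ℕ) * theta D (ways s))).trace = _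
  rw [one_mul]

private theorem Fun_push (h : St_PgTurn) (A : ℂˣ) (D : Diagram K n)
    (hA : (A : ℂ) ^ 2 = Complex.I) (a : Fin K) (ε : ℤˣ) :
    phi A (D.push a ε) = ((A ^ (ε : ℤ) : ℂˣ) : ℂ) • S (E a) ε (phi A D) := by
  obtain ⟨h0, -⟩ := h K
  funext π
  have hS : (((A ^ (ε : ℤ) : ℂˣ) : ℂ) • S (E a) ε (phi A D)) π =
      ((A ^ (ε : ℤ) : ℂˣ) : ℂ) *
        (phi A D π - (((ε : ℤ) : ℂ) * Complex.I) * E a (phi A D) π) := rfl
  rw [hS]
  have h1 : phi A (D.push a ε) π =
      (∑ s : Fin n → Bool, (((A ^ (ε : ℤ) : ℂˣ) : ℂ) * wt A D s) *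
        (if (MP π * theta D (ways s)).trace = 2 then 1 else 0)) +
      ∑ s : Fin n → Bool, (((A ^ (-(ε : ℤ)) : ℂˣ) : ℂ) * wt A D s) *
        (if (MP π * (W a .turn * theta D (ways s))).trace = 2 then 1 else 0) := by
    unfold phi
    rw [← (Fin.consEquiv (fun _ : Fin (n + 1) => Bool)).sum_comp, Fintype.sum_prod_type,
      Fintype.sum_bool]
    congr 1
    · refine Finset.sum_congr rfl fun s _ => ?_
      show wt A (D.push a ε) (Fin.cons true s : Fin (n + 1) → Bool) *
        (if (MP π * theta (D.push a ε) (ways (Fin.cons true s : Fin (n + 1) → Bool))).trace = 2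
          then 1 else 0) = _
      rw [Fun_wt, if_pos rfl, Fun_along]
    · refine Finset.sum_congr rfl fun s _ => ?_
      show wt A (D.push a ε) (Fin.cons false s : Fin (n + 1) → Bool) *
        (if (MP π * theta (D.push a ε) (ways (Fin.cons false s : Fin (n + 1) → Bool))).trace = 2
          then 1 else 0) = _
      rw [Fun_wt, Fun_ways]
      show ((A ^ (-(ε : ℤ)) : ℂˣ) : ℂ) * wt A D s *
        (if (MP π * theta (D.push a ε) (Fin.cons Way.turn (ways s) : Fin (n + 1) → Way)).trace = 2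
          then 1 else 0) = _
      rw [thm_Push]
  rw [h1]
  have h2 : (∑ s : Fin n → Bool, (((A ^ (ε : ℤ) : ℂˣ) : ℂ) * wt A D s) *
        (if (MP π * theta D (ways s)).trace = 2 then (1 : ℂ) else 0)) =
      ((A ^ (ε : ℤ) : ℂˣ) : ℂ) * phi A D π := by
    unfold phi
    rw [Finset.mul_sum]
    refine Finset.sum_congr rfl fun s _ => ?_
    rw [mul_assoc]
  have h3 : (∑ s : Fin n → Bool, (((A ^ (-(ε : ℤ)) : ℂˣ) : ℂ) * wt A D s) *
        (if (MP π * (W a .turn * theta D (ways s))).trace = 2 then (1 : ℂ) else 0)) =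
      ((A ^ (-(ε : ℤ)) : ℂˣ) : ℂ) * E a (phi A D) π := by
    by_cases hπ : π.1 (lp a) = rp a
    · have h4 : E a (phi A D) π = 0 := by
        show (if h : π.1 (lp a) = rp a then (0 : ℂ) else phi A D (turnP a π h)) = 0
        rw [dif_pos hπ]
      rw [h4, mul_zero]
      refine Finset.sum_eq_zero fun s _ => ?_
      rw [← Matrix.mul_assoc, (h0 a π).1 hπ, if_neg, mul_zero]
      rw [Matrix.smul_mul, Matrix.trace_smul, smul_eq_mul]
      intro h5
      exact Fun_even π D (ways s) (by omega)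
    · have h4 : E a (phi A D) π = phi A D (turnP a π hπ) := by
        show (if h : π.1 (lp a) = rp a then (0 : ℂ) else phi A D (turnP a π h)) = _
        rw [dif_neg hπ]
      rw [h4]
      unfold phi
      rw [Finset.mul_sum]
      refine Finset.sum_congr rfl fun s _ => ?_
      rw [← Matrix.mul_assoc, (h0 a π).2 hπ, mul_assoc]
  rw [h2, h3, Fun_neg A hA]
  ring

theorem thm_Fun (h : St_PgTurn) : St_Fun := by
  intro K n D A hA
  exact ⟨Fun_bracket (h K).2 D A hA, fun a ε => Fun_push h A D hA a ε⟩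

end Pool.RB
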