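import Pool.Agent.RB.St

/-!
# LINE: the stabiliser of a subspace which is not stable has a common eigenvector
-/

namespace Pool.RB

open Matrix

open scoped MatrixGroups

section

variable {V : Type} [AddCommGroup V] [Module ℂ V]

/-- The linear part of `rho`. -/
private noncomputable def Line_L (e f : V →ₗ[ℂ] V) (X : Matrix (Fin 2) (Fin 2) ℂ) : V →ₗ[ℂ] V :=
  X 0 0 • (e * f) + (X 0 1 * -Complex.I) • e + (X 1 0 * Complex.I) • f + X 1 1 • (f * e)

private lemma Line_rho (e f : V →ₗ[ℂ] V) (X : Matrix (Fin 2) (Fin 2) ℂ) :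
    rho e f X = (1 - e * f - f * e) + Line_L e f X := by
  unfold rho Line_L
  abel

private lemma Line_zero (e f : V →ₗ[ℂ] V) : Line_L e f 0 = 0 := by
  simp [Line_L]

private lemma Line_add (e f : V →ₗ[ℂ] V) (X Y : Matrix (Fin 2) (Fin 2) ℂ) :
    Line_L e f (X + Y) = Line_L e f X + Line_L e f Y := by
  simp only [Line_L, Matrix.add_apply, add_mul, add_smul]
  abel

private lemma Line_smul (e f : V →ₗ[ℂ] V) (c : ℂ) (X : Matrix (Fin 2) (Fin 2) ℂ) :
    Line_L e f (c • X) = c • Line_L e f X := by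
  simp only [Line_L, Matrix.smul_apply, smul_eq_mul, smul_add, smul_smul, mul_assoc]

private lemma Line_cayley (X : Matrix (Fin 2) (Fin 2) ℂ) (h : X.det = 1) :
    X * X = X.trace • X + (-1 : ℂ) • (1 : Matrix (Fin 2) (Fin 2) ℂ) := by
  rw [Matrix.det_fin_two] at h
  ext i j
  fin_cases i <;> fin_cases j <;>
    simp [Matrix.mul_apply, Matrix.trace_fin_two, Fin.sum_univ_two]
  · linear_combination -h
  · ring
  · ring
  · linear_combination -h

end

theorem thm_Line (h1 : St_Rho) (h2 : St_Burn) : St_Line := by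
  intro V _ _ e f htl T hT
  obtain ⟨r1, r2, -, -⟩ := h1 V e f htl
  by_contra hno
  apply hT
  set H : Set (Matrix (Fin 2) (Fin 2) ℂ) :=
    {X | ∃ h : SL(2, ℤ), mz h = X ∧ ∀ x ∈ T, rho e f (mz h) x ∈ T} with hH
  have hone : (1 : Matrix (Fin 2) (Fin 2) ℂ) ∈ H := by
    refine ⟨1, ?_, ?_⟩
    · ext i j
      fin_cases i <;> fin_cases j <;> simp [mz]
    · intro x hx
      have : mz 1 = 1 := by
        ext i j
        fin_cases i <;> fin_cases j <;> simp [mz]
      rw [this, r1]
      exact hx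
  have hmul : ∀ g ∈ H, ∀ h ∈ H, g * h ∈ H := by
    rintro _ ⟨g, rfl, hg⟩ _ ⟨h, rfl, hh⟩
    have hgh : mz (g * h) = mz g * mz h := by
      ext i j
      fin_cases i <;> fin_cases j <;> simp [mz, Matrix.mul_apply, Fin.sum_univ_two]
    refine ⟨g * h, hgh, ?_⟩
    intro x hx
    rw [hgh, r2]
    exact hg _ (hh x hx)
  have hdet : ∀ h : SL(2, ℤ), (mz h).det = 1 := by
    intro h
    have h3 : (h : Matrix (Fin 2) (Fin 2) ℤ).det = 1 := h.2
    rw [Matrix.det_fin_two] at h3
    rw [Matrix.det_fin_two]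
    simp only [mz, Matrix.map_apply]
    exact_mod_cast h3
  obtain ⟨hspan, _, ⟨h, rfl, hh⟩, htr⟩ := h2 H hone hmul (by
    rintro ⟨v, hv, hc⟩
    exact hno ⟨v, hv, fun h hh => hc _ ⟨h, rfl, hh⟩⟩)
  set z : V →ₗ[ℂ] V := 1 - e * f - f * e with hz
  have key : (2 - (mz h).trace) • z =
      rho e f (mz h) * rho e f (mz h) - (mz h).trace • rho e f (mz h) + 1 := by
    rw [← r2, Line_cayley _ (hdet h), ← r1]
    simp only [Line_rho, Line_add, Line_smul]
    module
  have hzT : ∀ x ∈ T, z x ∈ T := by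
    intro x hx
    have h3 : (2 - (mz h).trace) ≠ 0 := fun h4 => htr (by linear_combination -h4)
    have h4 : (2 - (mz h).trace) • z x ∈ T := by
      have h5 := congrArg (fun u : V →ₗ[ℂ] V => u x) key
      simp only [LinearMap.smul_apply, LinearMap.add_apply, LinearMap.sub_apply,
        Module.End.mul_apply, Module.End.one_apply] at h5
      rw [h5]
      exact T.add_mem (T.sub_mem (hh _ (hh _ hx)) (T.smul_mem _ (hh _ hx))) hx
    have h6 := T.smul_mem (2 - (mz h).trace)⁻¹ h4
    rwa [smul_smul, inv_mul_cancel₀ h3, one_smul] at h6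
  have hall : ∀ X : Matrix (Fin 2) (Fin 2) ℂ, ∀ x ∈ T, Line_L e f X x ∈ T := by
    intro X
    have hX : X ∈ Submodule.span ℂ H := by
      rw [hspan]
      exact Submodule.mem_top
    induction hX using Submodule.span_induction with
    | mem Y hY =>
      obtain ⟨g, rfl, hg⟩ := hY
      intro x hx
      have h5 : Line_L e f (mz g) x = rho e f (mz g) x - z x := by
        rw [Line_rho, LinearMap.add_apply]
        abel
      rw [h5]
      exact T.sub_mem (hg x hx) (hzT x hx)
    | zero =>
      intro x _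
      rw [Line_zero]
      exact T.zero_mem
    | add Y Z _ _ hY hZ =>
      intro x hx
      rw [Line_add]
      exact T.add_mem (hY x hx) (hZ x hx)
    | smul c Y _ hY =>
      intro x hx
      rw [Line_smul]
      exact T.smul_mem c (hY x hx)
  intro x hx
  constructor
  · have h5 := hall !![0, Complex.I; 0, 0] x hx
    simpa [Line_L] using h5
  · have h5 := hall !![0, 0; -Complex.I, 0] x hx
    simpa [Line_L] using h5

end Pool.RB
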