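import Pool.Agent.RB.States

/-!
# Parity of the number of components
-/

set_option autoImplicit false

namespace Pool.RB

variable {K n : ℕ}

/-! ### keeping all crossings -/

theorem curves_keep_of_isKnot (D : Diagram K n) (hD : D.IsKnot) :
    D.curves (fun _ => .keep) = 1 := by
  unfold Diagram.curves
  set r : Tip K n → Tip K n → Prop :=
    fun p q => q = join (fun _ => Way.keep) p ∨ q = D.arc p with hr
  have e1 : ∀ s, Quot.mk r (s, false) = Quot.mk r (s, true) := by
    intro s
    apply Quot.sound
    left
    rcases s with c | ⟨x, j⟩ <;> rfl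
  have e2 : ∀ s, Quot.mk r (D.next s, true) = Quot.mk r (s, true) := by
    intro s
    rw [← e1]
    have h : r (s, true) (D.next s, false) := Or.inr rfl
    exact (Quot.sound h).symm
  have e3 : ∀ (i : ℕ) (s : Site K n), Quot.mk r ((D.next ^ i) s, true) = Quot.mk r (s, true) := by
    intro i
    induction i with
    | zero => exact fun s => rfl
    | succ i ih =>
      intro s
      rw [pow_succ, Equiv.Perm.mul_apply, ih, e2]
  have e4 : ∀ p q : Tip K n, Quot.mk r p = Quot.mk r q := by
    have e5 : ∀ p : Tip K n, Quot.mk r p = Quot.mk r (.inl 0, true) := by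
      rintro ⟨s, b⟩
      have e6 : Quot.mk r (s, b) = Quot.mk r (s, true) := by
        cases b
        · exact e1 s
        · rfl
      obtain ⟨i, hi⟩ := (hD s (.inl 0)).exists_nat_pow_eq
      rw [e6, ← e3 i s, hi]
    intro p q
    rw [e5 p, e5 q]
  have : Subsingleton (Quot r) := by
    constructor
    intro x y
    induction x using Quot.ind
    induction y using Quot.ind
    exact e4 _ _
  have : Nonempty (Quot r) := ⟨Quot.mk r (.inl 0, true)⟩
  exact Nat.card_eq_one_iff_unique.mpr ⟨inferInstance, inferInstance⟩

theorem isKnot_of_curves_keep (D : Diagram K n) (h : D.curves (fun _ => .keep) = 1) :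
    D.IsKnot := by
  unfold Diagram.curves at h
  set r : Tip K n → Tip K n → Prop :=
    fun p q => q = join (fun _ => Way.keep) p ∨ q = D.arc p with hr
  obtain ⟨h1, -⟩ := Nat.card_eq_one_iff_unique.mp h
  let st := Equiv.Perm.SameCycle.setoid D.next
  have hf : ∀ p q : Tip K n, r p q → Quotient.mk st p.1 = Quotient.mk st q.1 := by
    rintro ⟨s, b⟩ q (rfl | rfl)
    · rcases s with c | ⟨x, j⟩ <;> rfl
    · cases b
      · apply Quotient.sound
        exact Equiv.Perm.sameCycle_symm_apply_right.mpr (Equiv.Perm.SameCycle.refl _ _)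
      · apply Quotient.sound
        exact Equiv.Perm.sameCycle_apply_right.mpr (Equiv.Perm.SameCycle.refl _ _)
  intro s t
  have h2 : Quot.mk r (s, true) = Quot.mk r (t, true) := Subsingleton.elim _ _
  have h3 := congrArg (Quot.lift (fun p : Tip K n => Quotient.mk st p.1) hf) h2
  exact Quotient.exact h3

/-! ### signs -/

private def newEquiv (K n : ℕ) : Site K n ⊕ Bool ≃ Site K (n + 1) where
  toFun
    | .inl s => up s
    | .inr i => .inr (0, i)
  invFun
    | .inl b => .inl (.inl b)
    | .inr (x, i) => Fin.cases (.inr i) (fun y => .inl (.inr (y, i))) x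
  left_inv := by
    rintro ((b | ⟨x, i⟩) | i) <;> rfl
  right_inv := by
    rintro (b | ⟨x, i⟩)
    · rfl
    · refine Fin.cases ?_ (fun y => ?_) x <;> rfl

private def rot (a : Fin K) : Equiv.Perm (Site K (n + 1)) :=
  Equiv.swap (.inl a.castSucc) (.inr (0, true)) * Equiv.swap (.inl a.castSucc) (.inl a.succ) *
    Equiv.swap (.inl a.castSucc) (.inr (0, false))

private theorem castSucc_ne_succ' (a : Fin K) : a.castSucc ≠ a.succ :=
  (Fin.castSucc_lt_succ (i := a)).ne

private theorem rot_sign (a : Fin K) : Equiv.Perm.sign (rot (n := n) a) = -1 := by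
  have h1 : (Sum.inl a.castSucc : Site K (n + 1)) ≠ Sum.inl a.succ :=
    fun h => castSucc_ne_succ' a (Sum.inl_injective h)
  unfold rot
  rw [map_mul, map_mul, Equiv.Perm.sign_swap (x := (Sum.inl a.castSucc : Site K (n + 1)))
    (y := Sum.inr (0, true)) (by simp), Equiv.Perm.sign_swap h1,
    Equiv.Perm.sign_swap (x := (Sum.inl a.castSucc : Site K (n + 1)))
    (y := Sum.inr (0, false)) (by simp)]
  rfl

private theorem rot_up (a : Fin K) (t : Site K n) : rot a (up t) = redirect a t := by
  have h0 := castSucc_ne_succ' a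
  have h0' := (castSucc_ne_succ' a).symm
  unfold rot
  rw [Equiv.Perm.mul_apply, Equiv.Perm.mul_apply]
  rcases t with b | ⟨x, i⟩
  · by_cases h1 : b = a.castSucc
    · subst h1
      simp [Equiv.swap_apply_def, up, redirect]
    · by_cases h2 : b = a.succ
      · subst h2
        simp [Equiv.swap_apply_def, up, redirect, h0']
      · simp [Equiv.swap_apply_def, up, redirect, h1, h2]
  · simp [Equiv.swap_apply_def, up, redirect, Fin.succ_ne_zero]

private theorem rot_new (a : Fin K) (i : Bool) :
    rot a (.inr (0, i) : Site K (n + 1)) = (if i then .inl a.castSucc else .inl a.succ) := by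
  have h0 := castSucc_ne_succ' a
  have h0' := (castSucc_ne_succ' a).symm
  unfold rot
  rw [Equiv.Perm.mul_apply, Equiv.Perm.mul_apply]
  cases i
  · simp [Equiv.swap_apply_def, h0']
  · simp [Equiv.swap_apply_def]

private theorem push_next_eq (D : Diagram K n) (a : Fin K) (ε : ℤˣ) :
    (D.push a ε).next = rot a *
      (newEquiv K n).permCongr (Equiv.Perm.sumCongr D.next (1 : Equiv.Perm Bool)) := by
  ext1 s
  obtain ⟨t, rfl⟩ := (newEquiv K n).surjective s
  rw [Equiv.Perm.mul_apply, Equiv.permCongr_apply, Equiv.symm_apply_apply]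
  rcases t with t | i
  · show (D.push a ε).next (up t) = rot a (up (D.next t))
    rw [rot_up]
    rcases t with b | ⟨x, i⟩ <;> rfl
  · show (D.push a ε).next (.inr (0, i)) = rot a (.inr (0, i))
    rw [rot_new]
    rfl

theorem sign_push (D : Diagram K n) (a : Fin K) (ε : ℤˣ) :
    Equiv.Perm.sign (D.push a ε).next = -Equiv.Perm.sign D.next := by
  rw [push_next_eq, map_mul, rot_sign, Equiv.Perm.sign_permCongr, Equiv.Perm.sign_sumCongr]
  simp

theorem sign_insert (D : Diagram K n) (w : List (Fin K × ℤˣ)) :
    Equiv.Perm.sign (D.insert w).next = (-1) ^ w.length * Equiv.Perm.sign D.next := by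
  induction w with
  | nil => simp [Diagram.insert]
  | cons l w ih =>
    show Equiv.Perm.sign ((D.insert w).push l.1 l.2).next = _
    rw [sign_push, ih, List.length_cons, pow_succ]
    simp

theorem sign_of_isKnot (D : Diagram K n) (hD : D.IsKnot) :
    Equiv.Perm.sign D.next = (-1) ^ K := by
  classical
  by_cases hs : Subsingleton (Site K n)
  · have h1 : D.next = 1 := Subsingleton.elim _ _
    have h2 : Fintype.card (Site K n) ≤ 1 := Fintype.card_le_one_iff_subsingleton.mpr hs
    have h3 : K = 0 := by
      simp only [Fintype.card_sum, Fintype.card_fin, Fintype.card_prod, Fintype.card_bool] at h2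
      omega
    rw [h1, h3]
    simp
  · rw [not_subsingleton_iff_nontrivial] at hs
    have hne : ∀ x, D.next x ≠ x := by
      intro x hx
      obtain ⟨y, hy⟩ := exists_ne x
      obtain ⟨i, hi⟩ := (hD x y).exists_nat_pow_eq
      apply hy
      rw [← hi]
      clear hi
      induction i with
      | zero => rfl
      | succ i ih => rw [pow_succ, Equiv.Perm.mul_apply, hx, ih]
    obtain ⟨x, -⟩ := exists_pair_ne (Site K n)
    have hc : D.next.IsCycle := ⟨x, hne x, fun y _ => hD x y⟩
    rw [hc.sign]
    have hsup : D.next.support = Finset.univ := by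
      ext y
      simp [Equiv.Perm.mem_support, hne y]
    rw [hsup, Finset.card_univ]
    simp only [Fintype.card_sum, Fintype.card_fin, Fintype.card_prod, Fintype.card_bool]
    rw [show K + 1 + n * 2 = K + 1 + 2 * n by ring, pow_add, pow_mul, pow_add]
    simp

/-- If the closure of a word is a knot, then it is not a knot after one more letter anywhere. -/
theorem not_isKnot_of_length (D : Diagram K n) (w w' : List (Fin K × ℤˣ))
    (hw : w'.length = w.length + 1) (h : (D.insert w).IsKnot) : ¬ (D.insert w').IsKnot := by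
  intro h'
  have h1 := sign_of_isKnot _ h
  have h2 := sign_of_isKnot _ h'
  rw [sign_insert] at h1 h2
  rw [hw, pow_succ] at h2
  rw [← h1] at h2
  have h3 : (-1 : ℤˣ) ^ w.length * -1 * Equiv.Perm.sign D.next =
      -((-1) ^ w.length * Equiv.Perm.sign D.next) := by
    simp
  rw [h3] at h2
  rcases Int.units_eq_one_or ((-1) ^ w.length * Equiv.Perm.sign D.next) with h5 | h5 <;>
    rw [h5] at h2 <;> revert h2 <;> decide

end Pool.RB
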