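import Pool.Agent.RB.St

/-!
# RB [PgTL]: the relations of the Temperley-Lieb algebra for the turnbacks
-/

namespace Pool.RB

variable {K : ℕ}

/-- `turnF` with the two ends as parameters. -/
private def tG (l r : Gate K) (π : Gate K → Gate K) : Gate K → Gate K := fun p =>
  if p = l then r else if p = r then l
  else if p = π l then π r else if p = π r then π l else π p

private theorem turnF_eq (a : Fin K) (π : Gate K → Gate K) : turnF a π = tG (lp a) (rp a) π := rfl

private theorem tG_swap (l r : Gate K) (π : Gate K → Gate K) (h1 : ∀ p, π (π p) = p)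
    (hlr : l ≠ r) : tG l r π = tG r l π := by
  have hpq : π l ≠ π r := fun h => hlr (by rw [← h1 l, h, h1])
  funext p
  unfold tG
  by_cases g1 : p = l
  · subst g1
    simp [hlr]
  · by_cases g2 : p = r
    · subst g2
      simp [g1]
    · simp only [g1, g2, if_false]
      by_cases g3 : p = π l
      · simp [g3, hpq]
      · simp [g3]

/-- Two turnbacks: `p`, `q` are joined, then `q`, `r`, then `p`, `q` again. -/
private theorem tG_tG (π : Gate K → Gate K) (h1 : ∀ p, π (π p) = p) (h2 : ∀ p, π p ≠ p)
    {p q r : Gate K} (hpq : π p = q) (hrp : r ≠ p) (hrq : r ≠ q) :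
    tG q r π p ≠ q ∧ tG p q (tG q r π) = π := by
  have hqp : π q = p := by rw [← hpq, h1]
  have hpq' : p ≠ q := fun h => h2 p (by rw [hpq, h])
  obtain ⟨s, hs⟩ : ∃ s, s = π r := ⟨_, rfl⟩
  have hsr : π s = r := by rw [hs, h1]
  have hs1 : s ≠ p := fun h => hrq (by rw [← hsr, h, hpq])
  have hs2 : s ≠ q := fun h => hrp (by rw [← hsr, h, hqp])
  have hs3 : s ≠ r := fun h => h2 r (by rw [← hs, h])
  -- the values of the middle pairing
  have e1 : tG q r π q = r := by simp [tG]
  have e2 : tG q r π r = q := by simp [tG, hrq]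
  have e3 : tG q r π p = s := by simp [tG, hpq', hrp.symm, hqp, ← hs]
  have e4 : tG q r π s = p := by simp [tG, hs1, hs2, hs3, hqp, ← hs]
  have e5 : ∀ x, x ≠ p → x ≠ q → x ≠ r → x ≠ s → tG q r π x = π x := by
    intro x g1 g2 g3 g4
    simp [tG, g1, g2, g3, hqp, ← hs, g4]
  refine ⟨by rw [e3]; exact hs2, ?_⟩
  funext x
  by_cases g1 : x = p
  · rw [g1, hpq]
    simp [tG]
  by_cases g2 : x = q
  · rw [g2, hqp]
    simp [tG, hpq'.symm]
  have key : tG p q (tG q r π) x =
      if x = s then r else if x = r then s else tG q r π x := by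
    show (if x = p then q else if x = q then p else if x = tG q r π p then tG q r π q
      else if x = tG q r π q then tG q r π p else tG q r π x) = _
    rw [if_neg g1, if_neg g2, e3, e1]
  rw [key]
  by_cases g4 : x = s
  · rw [if_pos g4, g4, hsr]
  by_cases g3 : x = r
  · rw [if_neg g4, if_pos g3, g3, ← hs]
  rw [if_neg g4, if_neg g3, e5 x g1 g2 g3 g4]

private theorem turn_l (a : Fin K) (π : Gate K → Gate K) : turnF a π (lp a) = rp a := by
  simp [turnF]

private theorem E_pos (a : Fin K) (φ : Pg K → ℂ) (π : Pg K) (h : π.1 (lp a) = rp a) :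
    E a φ π = 0 := dif_pos h

private theorem E_neg (a : Fin K) (φ : Pg K → ℂ) (π : Pg K) (h : π.1 (lp a) ≠ rp a) :
    E a φ π = φ (turnP a π h) := dif_neg h

private theorem key (a b : Fin K) (hab : a.val + 1 = b.val ∨ b.val + 1 = a.val) (π : Pg K)
    (h : π.1 (lp a) = rp a) : ∃ (h' : π.1 (lp b) ≠ rp b) (h'' : (turnP b π h').1 (lp a) ≠ rp a),
      turnP a (turnP b π h') h'' = π := by
  rcases hab with hab | hab
  · -- `lp b = rp a`
    have e1 : lp b = rp a := by
      unfold lp rp
      congr 1
      ext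
      simp only [Fin.val_castSucc, Fin.val_succ]
      omega
    have hr1 : rp b ≠ lp a := by
      intro h3
      have h4 := congrArg (fun z : Gate K => z.1.val) h3
      simp only [lp, rp, Fin.val_castSucc, Fin.val_succ] at h4
      omega
    have hr2 : rp b ≠ rp a := by
      intro h3
      have h4 := congrArg (fun z : Gate K => z.1.val) h3
      simp only [rp, Fin.val_succ] at h4
      omega
    have h' : π.1 (lp b) ≠ rp b := by
      rw [e1, ← h, π.2.1]
      exact hr1.symm
    obtain ⟨g1, g2⟩ := tG_tG π.1 π.2.1 π.2.2 h hr1 hr2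
    refine ⟨h', ?_, ?_⟩
    · show turnF b π.1 (lp a) ≠ rp a
      rw [turnF_eq, e1]
      exact g1
    · apply Subtype.ext
      show turnF a (turnF b π.1) = π.1
      rw [turnF_eq, turnF_eq, e1]
      exact g2
  · -- `rp b = lp a`
    have e1 : rp b = lp a := by
      unfold lp rp
      congr 1
      ext
      simp only [Fin.val_castSucc, Fin.val_succ]
      omega
    have hr1 : lp b ≠ rp a := by
      intro h3
      have h4 := congrArg (fun z : Gate K => z.1.val) h3
      simp only [lp, rp, Fin.val_castSucc, Fin.val_succ] at h4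
      omega
    have hr2 : lp b ≠ lp a := by
      intro h3
      have h4 := congrArg (fun z : Gate K => z.1.val) h3
      simp only [lp, Fin.val_castSucc] at h4
      omega
    have hq : π.1 (rp a) = lp a := by rw [← h, π.2.1]
    have h' : π.1 (lp b) ≠ rp b := by
      intro h3
      rw [e1] at h3
      apply hr1
      rw [← h, ← h3, π.2.1]
    obtain ⟨g1, g2⟩ := tG_tG π.1 π.2.1 π.2.2 hq hr1 hr2
    have e2 : turnF b π.1 = tG (lp a) (lp b) π.1 := by
      rw [turnF_eq, e1]
      exact tG_swap (lp b) (lp a) π.1 π.2.1 hr2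
    have hinv : ∀ p, turnF b π.1 (turnF b π.1 p) = p := (turnF_inv b π.1 π.2.1 π.2.2 h').1
    refine ⟨h', ?_, ?_⟩
    · show turnF b π.1 (lp a) ≠ rp a
      intro h3
      apply g1
      rw [← e2, ← h3, hinv]
    · apply Subtype.ext
      show turnF a (turnF b π.1) = π.1
      rw [turnF_eq, tG_swap (lp a) (rp a) (turnF b π.1) hinv (lp_ne_rp a), e2]
      exact g2

theorem thm_PgTL : St_PgTL := by
  intro K a
  constructor
  · ext φ π
    show E a (E a φ) π = 0
    by_cases h : π.1 (lp a) = rp a
    · exact E_pos a _ π h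
    · rw [E_neg a _ π h]
      exact E_pos a _ _ (turn_l a π.1)
  · intro b hab
    ext φ π
    show E a (E b (E a φ)) π = E a φ π
    by_cases h : π.1 (lp a) = rp a
    · rw [E_pos a _ π h, E_pos a _ π h]
    · rw [E_neg a _ π h, E_neg a _ π h]
      obtain ⟨h', h'', h3⟩ := key a b hab (turnP a π h) (turn_l a π.1)
      rw [E_neg b _ _ h', E_neg a _ _ h'', h3]

end Pool.RB
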