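import Pool.Agent.RB.St

/-!
# RB [PgTurn]: the matrix of a pairing and a turnback
-/

namespace Pool.RB

open Matrix

open scoped Classical

variable {K : ℕ}

/-- `z` with the colour `v` on the strands `a`, `a + 1` -/
private def PgTurn_y (a : Fin K) (z : Col K) (v : Bool) : Col K := fun b =>
  if b = a.castSucc ∨ b = a.succ then v else z b

private theorem PgTurn_gc (a : Fin K) (x z : Col K) (v : Bool) (p : Gate K) :
    gc x (PgTurn_y a z v) p = if p = lp a ∨ p = rp a then v else gc x z p := by
  obtain ⟨i, b⟩ := p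
  cases b
  · have h : ¬ (((i, false) : Gate K) = lp a ∨ ((i, false) : Gate K) = rp a) := by
      rintro (h | h)
      · exact Bool.noConfusion (congrArg Prod.snd h)
      · exact Bool.noConfusion (congrArg Prod.snd h)
    rw [if_neg h]
    rfl
  · have h : (((i, true) : Gate K) = lp a ∨ ((i, true) : Gate K) = rp a) ↔
        (i = a.castSucc ∨ i = a.succ) := by
      unfold lp rp
      simp only [Prod.mk.injEq, and_true]
    show PgTurn_y a z v i = if ((i, true) : Gate K) = lp a ∨ ((i, true) : Gate K) = rp a then v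
      else z i
    unfold PgTurn_y
    by_cases g : i = a.castSucc ∨ i = a.succ
    · rw [if_pos g, if_pos (h.2 g)]
    · rw [if_neg g, if_neg (fun t => g (h.1 t))]

private theorem PgTurn_lp (x y : Col K) (a : Fin K) : gc x y (lp a) = y a.castSucc := rfl

private theorem PgTurn_rp (x y : Col K) (a : Fin K) : gc x y (rp a) = y a.succ := rfl

private theorem PgTurn_sum (a : Fin K) (M : Col K → ℕ) (z : Col K) :
    ∑ y, M y * W a .turn y z = if z a.castSucc = z a.succ then
      M (PgTurn_y a z true) + M (PgTurn_y a z false) else 0 := by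
  by_cases hz : z a.castSucc = z a.succ
  · rw [if_pos hz]
    have h1 : ∀ y, M y * W a .turn y z =
        (if y = PgTurn_y a z true then M (PgTurn_y a z true) else 0) +
        (if y = PgTurn_y a z false then M (PgTurn_y a z false) else 0) := by
      intro y
      by_cases h : y a.castSucc = y a.succ ∧ z a.castSucc = z a.succ ∧
          (∀ b, b ≠ a.castSucc → b ≠ a.succ → y b = z b)
      · have h2 : y = PgTurn_y a z (y a.castSucc) := by
          funext b
          unfold PgTurn_y
          by_cases g : b = a.castSucc ∨ b = a.succ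
          · rw [if_pos g]
            rcases g with rfl | rfl
            · rfl
            · exact h.1.symm
          · rw [if_neg g]
            exact h.2.2 b (fun t => g (Or.inl t)) (fun t => g (Or.inr t))
        have h3 : W a .turn y z = 1 := by
          show (if _ then 1 else 0) = 1
          rw [if_pos h]
        rw [h3, mul_one]
        have h4 : PgTurn_y a z true ≠ PgTurn_y a z false := by
          intro g
          have g1 := congrFun g a.castSucc
          simp [PgTurn_y] at g1
        cases hv : y a.castSucc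
        · rw [hv] at h2
          rw [h2, if_neg h4.symm, if_pos rfl, zero_add]
        · rw [hv] at h2
          rw [h2, if_neg h4, if_pos rfl, add_zero]
      · have h3 : W a .turn y z = 0 := by
          show (if _ then 1 else 0) = 0
          rw [if_neg h]
        have h5 : ∀ v, y ≠ PgTurn_y a z v := by
          rintro v rfl
          apply h
          refine ⟨by simp [PgTurn_y], hz, fun b g1 g2 => ?_⟩
          simp [PgTurn_y, g1, g2]
        rw [h3, mul_zero, if_neg (h5 true), if_neg (h5 false), add_zero]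
    rw [Finset.sum_congr rfl fun y _ => h1 y, Finset.sum_add_distrib, Finset.sum_ite_eq',
      Finset.sum_ite_eq', if_pos (Finset.mem_univ _), if_pos (Finset.mem_univ _)]
  · rw [if_neg hz]
    refine Finset.sum_eq_zero fun y _ => ?_
    have h3 : W a .turn y z = 0 := by
      show (if _ then 1 else 0) = 0
      rw [if_neg (fun h => hz h.2.1)]
    rw [h3, mul_zero]

private theorem PgTurn_MP (π : Pg K) (x y : Col K) :
    MP π x y = if ∀ p, gc x y (π.1 p) = gc x y p then 1 else 0 := rfl

private theorem PgTurn_one (a : Fin K) (π : Pg K) (h : π.1 (lp a) = rp a) :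
    MP π * W a .turn = 2 • MP π := by
  ext x z
  rw [Matrix.mul_apply, PgTurn_sum a (fun y => MP π x y) z, Matrix.smul_apply]
  have h' : π.1 (rp a) = lp a := by rw [← h, π.2.1]
  have hn : ∀ p, ¬ (p = lp a ∨ p = rp a) → ¬ (π.1 p = lp a ∨ π.1 p = rp a) := by
    rintro p hp (g | g)
    · exact hp (Or.inr (by rw [← h, ← g, π.2.1]))
    · exact hp (Or.inl (by rw [← h', ← g, π.2.1]))
  by_cases hz : z a.castSucc = z a.succ
  · rw [if_pos hz]
    have h1 : ∀ v, MP π x (PgTurn_y a z v) = MP π x z := by
      intro v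
      rw [PgTurn_MP, PgTurn_MP]
      refine if_congr ⟨fun g p => ?_, fun g p => ?_⟩ rfl rfl
      · by_cases hp : p = lp a ∨ p = rp a
        · rcases hp with rfl | rfl
          · rw [h, PgTurn_lp, PgTurn_rp, hz]
          · rw [h', PgTurn_lp, PgTurn_rp, hz]
        · have g1 := g p
          rw [PgTurn_gc, PgTurn_gc, if_neg hp, if_neg (hn p hp)] at g1
          exact g1
      · by_cases hp : p = lp a ∨ p = rp a
        · rcases hp with rfl | rfl
          · rw [h, PgTurn_gc, PgTurn_gc, if_pos (Or.inr rfl), if_pos (Or.inl rfl)]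
          · rw [h', PgTurn_gc, PgTurn_gc, if_pos (Or.inr rfl), if_pos (Or.inl rfl)]
        · rw [PgTurn_gc, PgTurn_gc, if_neg hp, if_neg (hn p hp)]
          exact g p
    show MP π x (PgTurn_y a z true) + MP π x (PgTurn_y a z false) = _
    rw [h1, h1, smul_eq_mul]
    ring
  · rw [if_neg hz]
    have h2 : MP π x z = 0 := by
      rw [PgTurn_MP, if_neg]
      intro g
      have g1 := g (lp a)
      rw [h, PgTurn_lp, PgTurn_rp] at g1
      exact hz g1.symm
    rw [h2, smul_zero]

private theorem PgTurn_two (a : Fin K) (π : Pg K) (h : π.1 (lp a) ≠ rp a) :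
    MP π * W a .turn = MP (turnP a π h) := by
  ext x z
  rw [Matrix.mul_apply, PgTurn_sum a (fun y => MP π x y) z]
  have hlr := lp_ne_rp a
  have i1 : ∀ p, π.1 (π.1 p) = p := π.2.1
  have hPl : π.1 (lp a) ≠ lp a := π.2.2 _
  have hQr : π.1 (rp a) ≠ rp a := π.2.2 _
  have hQl : π.1 (rp a) ≠ lp a := by
    intro h3
    apply h
    rw [← h3, i1]
  have hPQ : π.1 (lp a) ≠ π.1 (rp a) := by
    intro h3
    apply hlr
    rw [← i1 (lp a), h3, i1]
  have hP : ¬ (π.1 (lp a) = lp a ∨ π.1 (lp a) = rp a) := by rintro (g | g); exacts [hPl g, h g]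
  have hQ : ¬ (π.1 (rp a) = lp a ∨ π.1 (rp a) = rp a) := by rintro (g | g); exacts [hQl g, hQr g]
  have e1 : turnF a π.1 (lp a) = rp a := by simp [turnF]
  have e2 : turnF a π.1 (rp a) = lp a := by simp [turnF, hlr.symm]
  have e3 : turnF a π.1 (π.1 (lp a)) = π.1 (rp a) := by simp [turnF, hPl, h]
  have e4 : turnF a π.1 (π.1 (rp a)) = π.1 (lp a) := by simp [turnF, hQl, hQr, hPQ.symm]
  have e5 : ∀ p, p ≠ lp a → p ≠ rp a → p ≠ π.1 (lp a) → p ≠ π.1 (rp a) →
      turnF a π.1 p = π.1 p := by
    intro p g1 g2 g3 g4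
    simp [turnF, g1, g2, g3, g4]
  have hn : ∀ p, p ≠ π.1 (lp a) → p ≠ π.1 (rp a) → ¬ (π.1 p = lp a ∨ π.1 p = rp a) := by
    rintro p g1 g2 (g | g)
    · exact g1 (by rw [← g, i1])
    · exact g2 (by rw [← g, i1])
  -- the conditions away from the four ends
  let R : Prop := ∀ p, p ≠ lp a → p ≠ rp a → p ≠ π.1 (lp a) → p ≠ π.1 (rp a) →
    gc x z (π.1 p) = gc x z p
  have h1 : ∀ v, MP π x (PgTurn_y a z v) =
      if gc x z (π.1 (lp a)) = v ∧ gc x z (π.1 (rp a)) = v ∧ R then 1 else 0 := by
    intro v
    rw [PgTurn_MP]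
    refine if_congr ⟨fun g => ⟨?_, ?_, fun p g1 g2 g3 g4 => ?_⟩, ?_⟩ rfl rfl
    · have g1 := g (lp a)
      rw [PgTurn_gc, PgTurn_gc, if_neg hP, if_pos (Or.inl rfl)] at g1
      exact g1
    · have g1 := g (rp a)
      rw [PgTurn_gc, PgTurn_gc, if_neg hQ, if_pos (Or.inr rfl)] at g1
      exact g1
    · have g5 := g p
      rw [PgTurn_gc, PgTurn_gc, if_neg (hn p g3 g4), if_neg (by tauto)] at g5
      exact g5
    · rintro ⟨g1, g2, g3⟩ p
      by_cases k1 : p = lp a
      · subst k1
        rw [PgTurn_gc, PgTurn_gc, if_neg hP, if_pos (Or.inl rfl), g1]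
      by_cases k2 : p = rp a
      · subst k2
        rw [PgTurn_gc, PgTurn_gc, if_neg hQ, if_pos (Or.inr rfl), g2]
      by_cases k3 : p = π.1 (lp a)
      · subst k3
        rw [i1, PgTurn_gc, PgTurn_gc, if_neg hP, if_pos (Or.inl rfl), g1]
      by_cases k4 : p = π.1 (rp a)
      · subst k4
        rw [i1, PgTurn_gc, PgTurn_gc, if_neg hQ, if_pos (Or.inr rfl), g2]
      rw [PgTurn_gc, PgTurn_gc, if_neg (hn p k3 k4), if_neg (by tauto)]
      exact g3 p k1 k2 k3 k4
  have h2 : MP (turnP a π h) x z = if z a.castSucc = z a.succ ∧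
      gc x z (π.1 (lp a)) = gc x z (π.1 (rp a)) ∧ R then 1 else 0 := by
    rw [PgTurn_MP]
    show (if ∀ p, gc x z (turnF a π.1 p) = gc x z p then 1 else 0) = _
    refine if_congr ⟨fun g => ⟨?_, ?_, fun p g1 g2 g3 g4 => ?_⟩, ?_⟩ rfl rfl
    · have g1 := g (rp a)
      rw [e2] at g1
      exact g1
    · have g1 := g (π.1 (rp a))
      rw [e4] at g1
      exact g1
    · have g5 := g p
      rw [e5 p g1 g2 g3 g4] at g5
      exact g5
    · rintro ⟨g1, g2, g3⟩ p
      by_cases k1 : p = lp a
      · subst k1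
        rw [e1]
        exact g1.symm
      by_cases k2 : p = rp a
      · subst k2
        rw [e2]
        exact g1
      by_cases k3 : p = π.1 (lp a)
      · subst k3
        rw [e3, g2]
      by_cases k4 : p = π.1 (rp a)
      · subst k4
        rw [e4, g2]
      rw [e5 p k1 k2 k3 k4]
      exact g3 p k1 k2 k3 k4
  show (if z a.castSucc = z a.succ then
      MP π x (PgTurn_y a z true) + MP π x (PgTurn_y a z false) else 0) = _
  rw [h1, h1, h2]
  by_cases hz : z a.castSucc = z a.succ
  · rw [if_pos hz]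
    by_cases hR : R
    · cases gc x z (π.1 (lp a)) <;> cases gc x z (π.1 (rp a)) <;> simp [hz, hR]
    · simp [hR]
  · rw [if_neg hz, if_neg (fun t => hz t.1)]

private theorem PgTurn_pid : MP (pid : Pg K) = 1 := by
  ext x y
  rw [PgTurn_MP, Matrix.one_apply]
  refine if_congr ⟨fun g => ?_, ?_⟩ rfl rfl
  · funext i
    exact (g (i, false)).symm
  · rintro rfl ⟨i, b⟩
    cases b <;> rfl

theorem thm_PgTurn : St_PgTurn := fun _ => ⟨fun a π => ⟨PgTurn_one a π, PgTurn_two a π⟩, PgTurn_pid⟩

end Pool.RB
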