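import Pool.Agent.RB.St

/-!
# RB, module Ping: the ping-pong inequality
-/

set_option autoImplicit false

namespace Pool.RB

open scoped Classical

private theorem Ping_N2 {X : Type} (p : X →₀ ℝ) : N2 p = ∑ t ∈ p.support, p t ^ 2 := rfl

private theorem Ping_le {X : Type} (p : X →₀ ℝ) (S : Finset X) : ∑ t ∈ S, p t ^ 2 ≤ N2 p := by
  have h1 : N2 p = ∑ t ∈ S ∪ p.support, p t ^ 2 := by
    rw [Ping_N2]
    refine Finset.sum_subset Finset.subset_union_right ?_
    intro t _ ht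
    rw [Finsupp.notMem_support_iff.1 ht]
    norm_num
  rw [h1]
  exact Finset.sum_le_sum_of_subset_of_nonneg Finset.subset_union_left
    fun t _ _ => sq_nonneg _

private theorem Ping_num (u v : ℝ) : u ^ 2 ≤ v ^ 2 + 8 * (u - v) ^ 2 + (u ^ 2 + v ^ 2) / 16 := by
  have h1 : 0 ≤ (16 * (u - v) - (u + v)) ^ 2 := sq_nonneg _
  have h2 : 0 ≤ (u - v) ^ 2 := sq_nonneg _
  have h3 : (u + v) ^ 2 ≤ 2 * u ^ 2 + 2 * v ^ 2 := by nlinarith
  nlinarith

/-- one half of the inequality -/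
private theorem Ping_half {X : Type} (x : Equiv.Perm X) (Y : Finset X) (p : X →₀ ℝ)
    (h1 : ∀ t ∈ Y, x t ∉ Y ∧ x.symm t ∉ Y) (h2 : ∀ t ∈ Y, ∀ t' ∈ Y, x t ≠ x.symm t') :
    2 * ∑ t ∈ Y, p t ^ 2 ≤ (17 / 16) * (N2 p - ∑ t ∈ Y, p t ^ 2) +
      16 * N2 (Finsupp.mapDomain x p - p) + (∑ t ∈ Y, p t ^ 2) / 8 := by
  -- the values of the image
  have hm : ∀ t, Finsupp.mapDomain x p t = p (x.symm t) := by
    intro t
    have := Finsupp.mapDomain_apply x.injective p (x.symm t)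
    rwa [Equiv.apply_symm_apply] at this
  have hm' : ∀ t, Finsupp.mapDomain x p (x t) = p t := fun t =>
    Finsupp.mapDomain_apply x.injective p t
  -- the masses of the images
  have hmass : ∑ t ∈ Y, p t ^ 2 + (∑ t ∈ Y, p (x t) ^ 2 + ∑ t ∈ Y, p (x.symm t) ^ 2) ≤ N2 p := by
    have e1 : ∑ t ∈ Y, p (x t) ^ 2 = ∑ s ∈ Y.map x.toEmbedding, p s ^ 2 := by
      rw [Finset.sum_map]
      rfl
    have e2 : ∑ t ∈ Y, p (x.symm t) ^ 2 = ∑ s ∈ Y.map x.symm.toEmbedding, p s ^ 2 := by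
      rw [Finset.sum_map]
      rfl
    have d1 : Disjoint (Y.map x.toEmbedding) (Y.map x.symm.toEmbedding) := by
      rw [Finset.disjoint_left]
      intro s hs hs'
      rw [Finset.mem_map] at hs hs'
      obtain ⟨t, ht, rfl⟩ := hs
      obtain ⟨t', ht', he⟩ := hs'
      exact h2 t ht t' ht' he.symm
    have d2 : Disjoint Y (Y.map x.toEmbedding ∪ Y.map x.symm.toEmbedding) := by
      rw [Finset.disjoint_right]
      intro s hs
      rw [Finset.mem_union, Finset.mem_map, Finset.mem_map] at hs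
      rcases hs with ⟨t, ht, rfl⟩ | ⟨t, ht, rfl⟩
      · exact (h1 t ht).1
      · exact (h1 t ht).2
    rw [e1, e2, ← Finset.sum_union d1, ← Finset.sum_union d2]
    exact Ping_le p _
  -- the differences
  have hd1 : ∑ t ∈ Y, (p t - p (x t)) ^ 2 ≤ N2 (Finsupp.mapDomain x p - p) := by
    have e1 : ∑ t ∈ Y, (p t - p (x t)) ^ 2 =
        ∑ s ∈ Y.map x.toEmbedding, (Finsupp.mapDomain x p - p) s ^ 2 := by
      rw [Finset.sum_map]
      refine Finset.sum_congr rfl fun t _ => ?_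
      rw [Finsupp.sub_apply]
      show _ = (Finsupp.mapDomain x p (x t) - p (x t)) ^ 2
      rw [hm']
    rw [e1]
    exact Ping_le _ _
  have hd2 : ∑ t ∈ Y, (p t - p (x.symm t)) ^ 2 ≤ N2 (Finsupp.mapDomain x p - p) := by
    have e1 : ∑ t ∈ Y, (p t - p (x.symm t)) ^ 2 =
        ∑ s ∈ Y, (Finsupp.mapDomain x p - p) s ^ 2 := by
      refine Finset.sum_congr rfl fun t _ => ?_
      rw [Finsupp.sub_apply, hm]
      ring
    rw [e1]
    exact Ping_le _ _
  have hs1 : ∑ t ∈ Y, p t ^ 2 ≤ ∑ t ∈ Y, p (x t) ^ 2 + 8 * ∑ t ∈ Y, (p t - p (x t)) ^ 2 +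
      (∑ t ∈ Y, p t ^ 2 + ∑ t ∈ Y, p (x t) ^ 2) / 16 := by
    rw [Finset.mul_sum, ← Finset.sum_add_distrib, ← Finset.sum_add_distrib, Finset.sum_div,
      ← Finset.sum_add_distrib]
    exact Finset.sum_le_sum fun t _ => Ping_num _ _
  have hs2 : ∑ t ∈ Y, p t ^ 2 ≤ ∑ t ∈ Y, p (x.symm t) ^ 2 +
      8 * ∑ t ∈ Y, (p t - p (x.symm t)) ^ 2 +
      (∑ t ∈ Y, p t ^ 2 + ∑ t ∈ Y, p (x.symm t) ^ 2) / 16 := by
    rw [Finset.mul_sum, ← Finset.sum_add_distrib, ← Finset.sum_add_distrib, Finset.sum_div,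
      ← Finset.sum_add_distrib]
    exact Finset.sum_le_sum fun t _ => Ping_num _ _
  linarith

theorem thm_Ping : St_Ping := by
  intro X x y A p h1 h2 h3 h4
  have hN : N2 p = ∑ t ∈ p.support.filter (fun t => t ∈ A), p t ^ 2 +
      ∑ t ∈ p.support.filter (fun t => t ∉ A), p t ^ 2 := by
    rw [Ping_N2, Finset.sum_filter_add_sum_filter_not]
  have hx := Ping_half x (p.support.filter (fun t => t ∉ A)) p
    (by
      intro t ht
      rw [Finset.mem_filter] at ht
      obtain ⟨g1, g2⟩ := h1 t ht.1 ht.2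
      constructor
      · intro h
        exact (Finset.mem_filter.1 h).2 g1
      · intro h
        exact (Finset.mem_filter.1 h).2 g2)
    (by
      intro t ht t' ht'
      rw [Finset.mem_filter] at ht ht'
      exact h3 t ht.1 ht.2 t' ht'.1 ht'.2)
  have hy := Ping_half y (p.support.filter (fun t => t ∈ A)) p
    (by
      intro t ht
      rw [Finset.mem_filter] at ht
      obtain ⟨g1, g2⟩ := h2 t ht.1 ht.2
      constructor
      · intro h
        exact g1 (Finset.mem_filter.1 h).2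
      · intro h
        exact g2 (Finset.mem_filter.1 h).2)
    (by
      intro t ht t' ht'
      rw [Finset.mem_filter] at ht ht'
      exact h4 t ht.1 ht.2 t' ht'.1 ht'.2)
  have n1 : 0 ≤ N2 (Finsupp.mapDomain x p - p) := Finset.sum_nonneg fun _ _ => sq_nonneg _
  have n2 : 0 ≤ N2 (Finsupp.mapDomain y p - p) := Finset.sum_nonneg fun _ _ => sq_nonneg _
  linarith

end Pool.RB
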