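import Pool.Agent.RB.Abs

/-!
# The walk on subspaces for braid boxes
-/

set_option autoImplicit false

namespace Pool.RB

open LaurentPolynomial

open scoped Classical

variable {K n : ℕ}

/-- The functions on the pairings and one more coordinate. -/
abbrev VV (K : ℕ) : Type := (Pg K → ℂ) × ℂ

/-- The operator of a turnback on `VV K`. -/
noncomputable def eh (a : Fin K) : VV K →ₗ[ℂ] VV K := (E a).prodMap 0

/-- The operator of a word on `VV K`. -/
noncomputable def oph (w : List (Fin K × ℤˣ)) : VV K →ₗ[ℂ] VV K :=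
  (w.map fun l => S (eh l.1) l.2).prod

theorem S_eh_apply (a : Fin K) (ε : ℤˣ) (φ : Pg K → ℂ) (s : ℂ) :
    S (eh a) ε (φ, s) = (S (E a) ε φ, s) := by
  unfold S eh
  simp only [LinearMap.sub_apply, LinearMap.smul_apply, Module.End.one_apply,
    LinearMap.prodMap_apply, LinearMap.zero_apply, Prod.smul_mk, smul_zero, Prod.mk_sub_mk,
    sub_zero]

theorem oph_nil : oph ([] : List (Fin K × ℤˣ)) = 1 := rfl

theorem oph_cons (l : Fin K × ℤˣ) (w : List (Fin K × ℤˣ)) :
    oph (l :: w) = S (eh l.1) l.2 * oph w := by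
  unfold oph
  rw [List.map_cons, List.prod_cons]

theorem oph_append (u w : List (Fin K × ℤˣ)) : oph (u ++ w) = oph u * oph w := by
  unfold oph
  rw [List.map_append, List.prod_append]

theorem opw_cons (l : Fin K × ℤˣ) (w : List (Fin K × ℤˣ)) :
    opw (l :: w) = S (E l.1) l.2 * opw w := by
  unfold opw
  rw [List.map_cons, List.prod_cons]

theorem oph_apply (w : List (Fin K × ℤˣ)) (φ : Pg K → ℂ) (s : ℂ) :
    oph w (φ, s) = (opw w φ, s) := by
  induction w with
  | nil => rfl
  | cons l w ih =>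
    rw [oph_cons, opw_cons, Module.End.mul_apply, Module.End.mul_apply, ih, S_eh_apply]

theorem eh_mul (a b : Fin K) : eh a * eh b = (E a * E b).prodMap 0 := by
  ext x <;> rfl

theorem eh_sq (h : St_PgTL) (a : Fin K) : eh a * eh a = 0 := by
  rw [eh_mul, (h K a).1]
  ext x <;> rfl

theorem eh_TL (h : St_PgTL) (a b : Fin K) (hab : a.val + 1 = b.val ∨ b.val + 1 = a.val) :
    TL (eh a) (eh b) := by
  refine ⟨eh_sq h a, eh_sq h b, ?_, ?_⟩
  · have h1 := (h K a).2 b hab
    have h2 : eh a * eh b * eh a = (E a * E b * E a).prodMap 0 := by ext x <;> rfl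
    rw [h2, h1]
    rfl
  · have h1 := (h K b).2 a hab.symm
    have h2 : eh b * eh a * eh b = (E b * E a * E b).prodMap 0 := by ext x <;> rfl
    rw [h2, h1]
    rfl

/-- The operator of a word as an equivalence. -/
noncomputable def ohE (h : St_PgTL) (w : List (Fin K × ℤˣ)) : VV K ≃ₗ[ℂ] VV K :=
  (w.map fun l => Abs_SE (eh l.1) (eh_sq h l.1) l.2).prod

theorem ohE_coe (h : St_PgTL) (w : List (Fin K × ℤˣ)) :
    ((ohE h w : VV K ≃ₗ[ℂ] VV K) : VV K →ₗ[ℂ] VV K) = oph w := by
  induction w with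
  | nil => rfl
  | cons l w ih =>
    rw [oph_cons, ← ih, ← Abs_SE_coe (eh l.1) (eh_sq h l.1)]
    unfold ohE
    rw [List.map_cons, List.prod_cons]
    rfl

/-- A block: the positions of two letters with free signs, and a fixed word. -/
abbrev Blk (K : ℕ) : Type := Fin K × Fin K × List (Fin K × ℤˣ)

/-- The two letters of the block are neighbours. -/
def nb (s : Blk K) : Bool := decide (s.1.val + 1 = s.2.1.val ∨ s.2.1.val + 1 = s.1.val)

/-- The step of a block. -/
noncomputable def toStep (h : St_PgTL) (s : Blk K) : Step (VV K) where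
  e := eh s.1
  f := eh s.2.1
  g := ohE h s.2.2
  turn := nb s
  he := eh_sq h _
  hf := eh_sq h _
  ht := fun hs => eh_TL h _ _ (of_decide_eq_true hs)

/-- The average over the signs of the blocks. -/
noncomputable def av : List (Blk K) → (List (Fin K × ℤˣ) → ℝ) → ℝ
  | [], F => F []
  | s :: M, F => (∑ ε : ℤˣ × ℤˣ,
      av M fun y => F ((s.1, ε.1) :: (s.2.1, ε.2) :: (s.2.2 ++ y))) / 4

theorem toStep_op (h : St_PgTL) (s : Blk K) (ε : ℤˣ × ℤˣ) (y : List (Fin K × ℤˣ)) :
    (toStep h s).op ε * oph y = oph ((s.1, ε.1) :: (s.2.1, ε.2) :: (s.2.2 ++ y)) := by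
  rw [oph_cons, oph_cons, oph_append]
  unfold Step.op toStep
  simp only
  rw [ohE_coe]
  simp only [mul_assoc]

theorem prob_eq (h : St_PgTL) (v : VV K) (M : List (Blk K)) : ∀ T : Submodule ℂ (VV K),
    prob v (M.map (toStep h)) T = av M fun y => if oph y v ∈ T then 1 else 0 := by
  induction M with
  | nil => intro T; rfl
  | cons s M ih =>
    intro T
    rw [List.map_cons]
    show (∑ ε : ℤˣ × ℤˣ, prob v (M.map (toStep h)) (T.comap ((toStep h s).op ε))) / 4 = _
    unfold av
    congr 1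
    refine Finset.sum_congr rfl fun ε _ => ?_
    rw [ih]
    congr 1
    funext y
    have h1 : oph y v ∈ T.comap ((toStep h s).op ε) ↔
        oph ((s.1, ε.1) :: (s.2.1, ε.2) :: (s.2.2 ++ y)) v ∈ T := by
      rw [← toStep_op h s ε y]
      rfl
    simp only [h1]

theorem av_ne_zero (M : List (Blk K)) : ∀ F : List (Fin K × ℤˣ) → ℝ, av M F ≠ 0 →
    ∃ y, F y ≠ 0 := by
  induction M with
  | nil => intro F hF; exact ⟨[], hF⟩
  | cons s M ih =>
    intro F hF
    unfold av at hF
    have h1 : (∑ ε : ℤˣ × ℤˣ,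
        av M fun y => F ((s.1, ε.1) :: (s.2.1, ε.2) :: (s.2.2 ++ y))) ≠ 0 := by
      intro h2
      apply hF
      rw [h2, zero_div]
    obtain ⟨ε, -, hε⟩ := Finset.exists_ne_zero_of_sum_ne_zero h1
    obtain ⟨y, hy⟩ := ih _ hε
    exact ⟨_, hy⟩

theorem av_mono (M : List (Blk K)) : ∀ F G : List (Fin K × ℤˣ) → ℝ, (∀ y, F y ≤ G y) →
    av M F ≤ av M G := by
  induction M with
  | nil => intro F G h; exact h []
  | cons s M ih =>
    intro F G h
    unfold av
    exact div_le_div_of_nonneg_right (Finset.sum_le_sum fun ε _ => ih _ _ fun y => h _)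
      (by norm_num)

theorem av_sum {ι : Type} (M : List (Blk K)) (s : Finset ι) :
    ∀ F : ι → List (Fin K × ℤˣ) → ℝ, av M (fun y => ∑ i ∈ s, F i y) = ∑ i ∈ s, av M (F i) := by
  induction M with
  | nil => intro F; rfl
  | cons t M ih =>
    intro F
    unfold av
    rw [← Finset.sum_div, Finset.sum_comm]
    congr 1
    refine Finset.sum_congr rfl fun ε _ => ?_
    rw [← ih]

theorem av_one (M : List (Blk K)) : av M (fun _ => 1) = 1 := by
  induction M with
  | nil => rfl
  | cons s M ih =>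
    show (∑ _ε : ℤˣ × ℤˣ, av M fun _ => 1) / 4 = 1
    rw [ih, Finset.sum_const, Finset.card_univ]
    have : Fintype.card (ℤˣ × ℤˣ) = 4 := by decide
    rw [this]
    norm_num

/-- The hyperplane of the value `c`. -/
def Hc (c : ℂ) : Submodule ℂ (VV K) where
  carrier := {x | x.1 pid = c * x.2}
  add_mem' := by
    intro x y hx hy
    simp only [Set.mem_ofPred_eq, Prod.fst_add, Prod.snd_add, Pi.add_apply] at *
    rw [hx, hy]
    ring
  zero_mem' := by simp
  smul_mem' := by
    intro r x hx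
    simp only [Set.mem_ofPred_eq, Prod.smul_fst, Prod.smul_snd, Pi.smul_apply, smul_eq_mul] at *
    rw [hx]
    ring

theorem mem_Hc (c : ℂ) (w : List (Fin K × ℤˣ)) (φ : Pg K → ℂ) :
    oph w (φ, 1) ∈ Hc c ↔ opw w φ pid = c := by
  rw [oph_apply]
  show opw w φ pid = c * 1 ↔ _
  rw [mul_one]

theorem turns_map (h : St_PgTL) (M : List (Blk K)) :
    turns (M.map (toStep h)) = M.countP fun s => nb s := by
  unfold turns
  rw [List.countP_map]
  rfl

/-- One value: the probability is exponentially small. -/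
theorem walk_one (hG : St_Gap) (h : St_PgTL) (D : Diagram K n) (φ : Pg K → ℂ) (c : ℂ)
    (hc : ∀ w, opw w φ pid = c → (D.insert w).IsKnot) (w₀ : List (Fin K × ℤˣ))
    (M : List (Blk K)) (l : ℕ)
    (hl : Module.finrank ℂ (VV K) * l ≤ M.countP fun s => nb s) :
    (av M fun y => if opw (w₀ ++ y) φ pid = c then 1 else 0) ≤
      2 * (((383 / 384 : ℝ) ^ l) ^ ((1 / 2 : ℝ) ^ Module.finrank ℂ (VV K))) := by
  have hv : ((φ, 1) : VV K) ≠ 0 := by
    intro h0
    have := congrArg Prod.snd h0
    simp at this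
  have h1 := thm_Abs hG (VV K) (φ, 1) hv
    (fun L T => (∃ M : List (Blk K), L = M.map (toStep h)) ∧ ∃ u, T ≤ (Hc c).comap (oph u))
    (by
      rintro L T T' hT ⟨hM, u, hu⟩
      exact ⟨hM, u, hT.trans hu⟩)
    (by
      rintro s L T ε ⟨⟨M, hM⟩, u, hu⟩
      rcases M with _ | ⟨m, M⟩
      · simp at hM
      · rw [List.map_cons, List.cons.injEq] at hM
        obtain ⟨rfl, rfl⟩ := hM
        refine ⟨⟨M, rfl⟩, u ++ ((m.1, ε.1) :: (m.2.1, ε.2) :: (m.2.2 ++ [])), ?_⟩
        intro x hx
        have h2 := hu hx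
        rw [Submodule.mem_comap] at h2 ⊢
        rw [oph_append, ← toStep_op h m ε [], oph_nil, mul_one, Module.End.mul_apply]
        exact h2)
    (by
      rintro s L T hs ⟨⟨M, hM⟩, u, hu⟩ hst
      rw [hM, prob_eq]
      by_contra hne
      obtain ⟨y, hy⟩ := av_ne_zero M _ hne
      have hyT : oph y (φ, 1) ∈ T := by
        by_contra h3
        exact hy (if_neg h3)
      rcases M with _ | ⟨m, M⟩
      · simp at hM
      rw [List.map_cons, List.cons.injEq] at hM
      obtain ⟨rfl, rfl⟩ := hM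
      have hyT' : oph ((m.1, 1) :: y) (φ, 1) ∈ T := by
        rw [oph_cons, Module.End.mul_apply]
        have h4 := (hst _ hyT).1
        unfold S
        rw [LinearMap.sub_apply, LinearMap.smul_apply, Module.End.one_apply]
        exact T.sub_mem hyT (T.smul_mem _ h4)
      have e1 : (D.insert (u ++ y)).IsKnot := by
        apply hc
        rw [← mem_Hc, oph_append]
        exact hu hyT
      have e2 : (D.insert (u ++ ((m.1, 1) :: y))).IsKnot := by
        apply hc
        rw [← mem_Hc, oph_append]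
        exact hu hyT'
      refine not_isKnot_of_length D (u ++ y) (u ++ ((m.1, 1) :: y)) ?_ e1 e2
      simp only [List.length_append, List.length_cons]
      omega)
    (Module.finrank ℂ (VV K)) l (M.map (toStep h)) ((Hc c).comap (oph w₀))
    ⟨⟨M, rfl⟩, w₀, le_rfl⟩ (Submodule.finrank_le _) (by rw [turns_map]; exact hl)
  rw [prob_eq] at h1
  refine le_trans (le_of_eq ?_) h1
  congr 1
  funext y
  have h2 : oph y (φ, 1) ∈ (Hc c).comap (oph w₀) ↔ opw (w₀ ++ y) φ pid = c := by
    rw [← mem_Hc, oph_append]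
    rfl
  simp only [h2]

end Pool.RB
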