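import Pool.Agent.RB.Walk

/-!
# Counting words
-/

set_option autoImplicit false

namespace Pool.RB

open LaurentPolynomial

open scoped Classical

variable {K n : ℕ}

/-- The event: the diagram is a knot diagram with normalised bracket `P`. -/
def Ev (D : Diagram K n) (P : ℤ[T;T⁻¹]) (w : List (Fin K × ℤˣ)) : Prop :=
  (D.insert w).IsKnot ∧ (D.insert w).normalized = P

theorem gauss_inj (G G' : GaussianInt) (h : (G : ℂ) = (G' : ℂ)) : G = G' :=
  GaussianInt.toComplex_injective h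

/-- All values: the probability is exponentially small. -/
theorem walk_all (hG : St_Gap) (h : St_PgTL) (hP : St_Par) (D : Diagram K n) (P : ℤ[T;T⁻¹])
    (w₀ : List (Fin K × ℤˣ)) (M : List (Blk K)) (l : ℕ)
    (hl : Module.finrank ℂ (VV K) * l ≤ M.countP fun s => nb s) :
    (av M fun y => if Ev D P (w₀ ++ y) then 1 else 0) ≤
      16 * (((383 / 384 : ℝ) ^ l) ^ ((1 / 2 : ℝ) ^ Module.finrank ℂ (VV K))) := by
  obtain ⟨z, hz⟩ := IsAlgClosed.exists_pow_nat_eq Complex.I (n := 2) (by norm_num)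
  have hz0 : z ≠ 0 := by
    rintro rfl
    rw [zero_pow (by norm_num)] at hz
    exact Complex.I_ne_zero hz.symm
  obtain ⟨A, hA⟩ : ∃ A : ℂˣ, (A : ℂ) = z := ⟨Units.mk0 z hz0, rfl⟩
  have hAI : (A : ℂ) ^ 2 = Complex.I := by rw [hA, hz]
  obtain ⟨hP1, hP2⟩ := hP K n D A hAI
  have hAn : (A : ℂ) ^ n ≠ 0 := pow_ne_zero _ A.ne_zero
  set c : ℕ → ℂ := fun j => ((A : ℂ) ^ j)⁻¹ * ev A P with hc
  set B : ℝ := 2 * (((383 / 384 : ℝ) ^ l) ^ ((1 / 2 : ℝ) ^ Module.finrank ℂ (VV K))) with hB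
  have hB0 : 0 ≤ B := by positivity
  set f : ℕ → List (Fin K × ℤˣ) → ℝ := fun j y =>
    if (∀ w, opw w (phi A D) pid = c j → (D.insert w).IsKnot) ∧
      opw (w₀ ++ y) (phi A D) pid = c j then 1 else 0 with hf
  have h1 : ∀ y, (if Ev D P (w₀ ++ y) then (1 : ℝ) else 0) ≤ ∑ j ∈ Finset.range 8, f j y := by
    intro y
    split_ifs with hy
    · obtain ⟨hk, hy2⟩ := hy
      obtain ⟨j, hj, hj2⟩ := hP2 (w₀ ++ y)
      have h3 : opw (w₀ ++ y) (phi A D) pid = c j := by
        rw [hc]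
        simp only
        rw [← hy2, hj2, ← mul_assoc, inv_mul_cancel₀ (pow_ne_zero _ A.ne_zero), one_mul]
      obtain ⟨G, hG1, hG2⟩ := hP1 (w₀ ++ y)
      have h4 : ∀ w, opw w (phi A D) pid = c j → (D.insert w).IsKnot := by
        intro w hw
        obtain ⟨G', hG1', hG2'⟩ := hP1 w
        have h5 : G' = G := by
          apply gauss_inj
          apply mul_left_cancel₀ hAn
          rw [← hG1', ← hG1, hw, h3]
        rw [← hG2', h5]
        exact hG2.mpr hk
      have h6 : f j y = 1 := by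
        rw [hf]
        simp only
        rw [if_pos ⟨h4, h3⟩]
      have h7 : f j y ≤ ∑ j ∈ Finset.range 8, f j y := by
        apply Finset.single_le_sum (f := fun j => f j y) _ (Finset.mem_range.mpr hj)
        intro i _
        rw [hf]
        simp only
        split_ifs <;> norm_num
      rw [h6] at h7
      exact h7
    · apply Finset.sum_nonneg
      intro i _
      rw [hf]
      simp only
      split_ifs <;> norm_num
  have h2 : ∀ j, av M (f j) ≤ B := by
    intro j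
    by_cases h3 : ∀ w, opw w (phi A D) pid = c j → (D.insert w).IsKnot
    · refine le_trans (av_mono M _ _ fun y => ?_)
        (walk_one hG h D (phi A D) (c j) h3 w₀ M l hl)
      rw [hf]
      simp only
      by_cases h4 : opw (w₀ ++ y) (phi A D) pid = c j
      · rw [if_pos h4]
        split_ifs <;> norm_num
      · rw [if_neg h4, if_neg (fun h5 => h4 h5.2)]
    · have h5 : f j = fun y => ∑ i ∈ (∅ : Finset ℕ), (fun _ _ => (0 : ℝ)) i y := by
        funext y
        rw [hf]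
        simp only [Finset.sum_empty]
        rw [if_neg (fun h5 => h3 h5.1)]
      rw [h5, av_sum M ∅ (fun _ _ => (0 : ℝ)), Finset.sum_empty]
      exact hB0
  refine (av_mono M _ _ h1).trans ?_
  rw [av_sum]
  refine (Finset.sum_le_sum fun j _ => h2 j).trans ?_
  rw [Finset.sum_const, Finset.card_range, hB, nsmul_eq_mul]
  push_cast
  linarith

/-- The exponential form. -/
theorem walk_exp (hG : St_Gap) (h : St_PgTL) (hP : St_Par) (K : ℕ) :
    ∃ C κ : ℝ, 0 < C ∧ 0 < κ ∧ ∀ (n : ℕ) (D : Diagram K n) (P : ℤ[T;T⁻¹])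
      (w₀ : List (Fin K × ℤˣ)) (M : List (Blk K)),
      (av M fun y => if Ev D P (w₀ ++ y) then 1 else 0) ≤
        C * Real.exp (-κ * (M.countP fun s => nb s)) := by
  set N := Module.finrank ℂ (VV K) with hN
  have hN0 : 0 < N := by
    have : Nontrivial (VV K) := inferInstance
    exact Module.finrank_pos
  set b : ℝ := (1 / 2 : ℝ) ^ N with hb
  have hb0 : 0 < b := by positivity
  obtain ⟨r, hr⟩ : ∃ r : ℝ, r = -Real.log (383 / 384) := ⟨_, rfl⟩
  have hr0 : 0 < r := by
    rw [hr, neg_pos]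
    exact Real.log_neg (by norm_num) (by norm_num)
  refine ⟨16 * Real.exp (r * b), r * b / N, by positivity, by positivity, ?_⟩
  intro n D P w₀ M
  set m := M.countP fun s => nb s with hm
  refine (walk_all hG h hP D P w₀ M (m / N) (Nat.mul_div_le m N)).trans ?_
  rw [mul_assoc, ← Real.exp_add]
  refine mul_le_mul_of_nonneg_left ?_ (by norm_num)
  have h1 : ((383 / 384 : ℝ) ^ (m / N)) ^ b = Real.exp (-(r * b * (m / N : ℕ))) := by
    rw [← Real.rpow_natCast, ← Real.rpow_mul (by norm_num), Real.rpow_def_of_pos (by norm_num)]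
    congr 1
    rw [hr]
    ring
  rw [h1]
  apply Real.exp_le_exp.mpr
  have h2 : (m : ℝ) / N ≤ (m / N : ℕ) + 1 := by
    rw [div_le_iff₀ (by exact_mod_cast hN0)]
    have := Nat.lt_div_mul_add hN0 (a := m)
    have h3 : m ≤ (m / N + 1) * N := by rw [add_mul, one_mul]; exact this.le
    exact_mod_cast h3
  have h4 : r * b / N * m = r * b * (m / N) := by ring
  rw [neg_mul, h4]
  nlinarith [mul_le_mul_of_nonneg_left h2 (mul_pos hr0 hb0).le]

/-! ### counting the signs -/

/-- The word `w₀ σ_(a 0) ^ (±1) σ_(b 0) ^ (±1) (w 0) σ_(a 1) ^ (±1) σ_(b 1) ^ (±1) (w 1) ...`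
with the signs `ε`. -/
def boxWord {m : ℕ} (w₀ : List (Fin K × ℤˣ)) (a b : Fin m → Fin K)
    (w : Fin m → List (Fin K × ℤˣ)) (ε : Fin m → ℤˣ × ℤˣ) : List (Fin K × ℤˣ) :=
  w₀ ++ (List.ofFn fun j => (a j, (ε j).1) :: (b j, (ε j).2) :: w j).flatten

theorem sum_av (m : ℕ) : ∀ (a b : Fin m → Fin K) (w : Fin m → List (Fin K × ℤˣ))
    (F : List (Fin K × ℤˣ) → ℝ), ∑ ε : Fin m → ℤˣ × ℤˣ, F (boxWord [] a b w ε) =
      4 ^ m * av (List.ofFn fun j => (a j, b j, w j)) F := by
  induction m with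
  | zero =>
    intro a b w F
    rw [Fintype.sum_unique, List.ofFn_zero, pow_zero, one_mul]
    rfl
  | succ m ih =>
    intro a b w F
    rw [← (Fin.consEquiv (fun _ : Fin (m + 1) => ℤˣ × ℤˣ)).sum_comp, Fintype.sum_prod_type,
      List.ofFn_succ]
    show _ = 4 ^ (m + 1) * ((∑ ε : ℤˣ × ℤˣ, av (List.ofFn fun j : Fin m =>
      (a j.succ, b j.succ, w j.succ)) fun y =>
        F ((a 0, ε.1) :: (b 0, ε.2) :: (w 0 ++ y))) / 4)
    have h1 : ∀ ε : ℤˣ × ℤˣ, av (List.ofFn fun j : Fin m =>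
        (a j.succ, b j.succ, w j.succ)) (fun y =>
          F ((a 0, ε.1) :: (b 0, ε.2) :: (w 0 ++ y))) * 4 ^ m =
        ∑ δ : Fin m → ℤˣ × ℤˣ,
          F (boxWord [] a b w ((Fin.consEquiv (fun _ : Fin (m + 1) => ℤˣ × ℤˣ)) (ε, δ))) := by
      intro ε
      rw [mul_comm, ← ih]
      refine Finset.sum_congr rfl fun δ _ => ?_
      congr 1
      unfold boxWord
      rw [List.nil_append, List.nil_append, List.ofFn_succ, List.flatten_cons]
      rfl
    rw [← Finset.sum_congr rfl fun ε _ => h1 ε, ← Finset.sum_mul, pow_succ]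
    ring

theorem boxWord_eq {m : ℕ} (w₀ : List (Fin K × ℤˣ)) (a b : Fin m → Fin K)
    (w : Fin m → List (Fin K × ℤˣ)) (ε : Fin m → ℤˣ × ℤˣ) :
    boxWord w₀ a b w ε = w₀ ++ boxWord [] a b w ε := rfl

theorem card_sum {X : Type} [Fintype X] (p : X → Prop) :
    (Nat.card {x : X // p x} : ℝ) = ∑ x : X, if p x then 1 else 0 := by
  rw [Nat.card_eq_fintype_card, Fintype.card_subtype, Finset.sum_boole]

theorem card_box (D : Diagram K n) (P : ℤ[T;T⁻¹]) {m : ℕ} (w₀ : List (Fin K × ℤˣ))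
    (a b : Fin m → Fin K) (w : Fin m → List (Fin K × ℤˣ)) :
    (Nat.card {ε : Fin m → ℤˣ × ℤˣ // Ev D P (boxWord w₀ a b w ε)} : ℝ) =
      4 ^ m * av (List.ofFn fun j => (a j, b j, w j))
        fun y => if Ev D P (w₀ ++ y) then 1 else 0 := by
  rw [card_sum, ← sum_av]
  rfl

/-! ### counting all words -/

/-- The average over the words of length `t`. -/
noncomputable def avw : ℕ → (List (Fin K × ℤˣ) → ℝ) → ℝ
  | 0, F => F []
  | t + 1, F => (∑ l : Fin K × ℤˣ, avw t fun y => F (l :: y)) / (2 * K)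

theorem sum_avw (hK : 0 < K) (t : ℕ) : ∀ F : List (Fin K × ℤˣ) → ℝ,
    ∑ w : Fin t → Fin K × ℤˣ, F (List.ofFn w) = (2 * K) ^ t * avw t F := by
  have hK0 : (2 * K : ℝ) ≠ 0 := by
    have : (0 : ℝ) < K := by exact_mod_cast hK
    positivity
  induction t with
  | zero =>
    intro F
    rw [Fintype.sum_unique, List.ofFn_zero, pow_zero, one_mul]
    rfl
  | succ t ih =>
    intro F
    rw [← (Fin.consEquiv (fun _ : Fin (t + 1) => Fin K × ℤˣ)).sum_comp, Fintype.sum_prod_type]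
    show _ = (2 * K : ℝ) ^ (t + 1) * ((∑ l : Fin K × ℤˣ, avw t fun y => F (l :: y)) / (2 * K))
    have h1 : ∀ l : Fin K × ℤˣ, avw t (fun y => F (l :: y)) * (2 * K) ^ t =
        ∑ w : Fin t → Fin K × ℤˣ,
          F (List.ofFn ((Fin.consEquiv (fun _ : Fin (t + 1) => Fin K × ℤˣ)) (l, w))) := by
      intro l
      rw [mul_comm, ← ih]
      refine Finset.sum_congr rfl fun w _ => ?_
      rw [List.ofFn_succ]
      rfl
    rw [← Finset.sum_congr rfl fun l _ => h1 l, ← Finset.sum_mul, pow_succ]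
    field_simp

/-- The average over the positions of `q` pairs of letters. -/
noncomputable def avp : ℕ → (List (Blk K) → ℝ) → ℝ
  | 0, H => H []
  | q + 1, H => (∑ a : Fin K × Fin K, avp q fun M => H ((a.1, a.2, []) :: M)) / (K * K)

theorem avp_sum {ι : Type} (q : ℕ) (s : Finset ι) (c : ℝ) :
    ∀ H : ι → List (Blk K) → ℝ, avp q (fun M => (∑ i ∈ s, H i M) / c) =
      (∑ i ∈ s, avp q (H i)) / c := by
  induction q with
  | zero => intro H; rfl
  | succ q ih =>
    intro H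
    unfold avp
    rw [← Finset.sum_div, Finset.sum_comm, Finset.sum_congr rfl fun a _ => ih _,
      ← Finset.sum_div]
    ring

theorem avp_mono (q : ℕ) : ∀ F G : List (Blk K) → ℝ, (∀ y, F y ≤ G y) →
    avp q F ≤ avp q G := by
  induction q with
  | zero => intro F G h; exact h []
  | succ q ih =>
    intro F G h
    unfold avp
    exact div_le_div_of_nonneg_right (Finset.sum_le_sum fun ε _ => ih _ _ fun y => h _)
      (by positivity)

theorem avp_mul (q : ℕ) (c : ℝ) : ∀ F : List (Blk K) → ℝ,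
    avp q (fun M => c * F M) = c * avp q F := by
  induction q with
  | zero => intro F; rfl
  | succ q ih =>
    intro F
    unfold avp
    rw [Finset.sum_congr rfl fun a _ => ih _, ← Finset.mul_sum, mul_div_assoc]

theorem avw_two (q : ℕ) : ∀ F : List (Fin K × ℤˣ) → ℝ,
    avw (2 * q) F = avp q fun M => av M F := by
  induction q with
  | zero => intro F; rfl
  | succ q ih =>
    intro F
    rw [show 2 * (q + 1) = 2 * q + 1 + 1 by ring]
    show (∑ l : Fin K × ℤˣ, (∑ l' : Fin K × ℤˣ, avw (2 * q) fun y => F (l :: l' :: y)) /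
      (2 * K)) / (2 * K) = (∑ a : Fin K × Fin K, avp q fun M =>
        (∑ ε : ℤˣ × ℤˣ, av M fun y => F ((a.1, ε.1) :: (a.2, ε.2) :: ([] ++ y))) / 4) / (K * K)
    have h1 : ∀ a : Fin K × Fin K, (avp q fun M =>
        (∑ ε : ℤˣ × ℤˣ, av M fun y => F ((a.1, ε.1) :: (a.2, ε.2) :: ([] ++ y))) / 4) =
        (∑ ε : ℤˣ × ℤˣ, avw (2 * q) fun y => F ((a.1, ε.1) :: (a.2, ε.2) :: y)) / 4 := by
      intro a
      rw [avp_sum q Finset.univ 4 (fun (ε : ℤˣ × ℤˣ) (M : List (Blk K)) =>
        av M fun y => F ((a.1, ε.1) :: (a.2, ε.2) :: ([] ++ y)))]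
      congr 1
      refine Finset.sum_congr rfl fun ε _ => ?_
      rw [ih]
      rfl
    rw [Finset.sum_congr rfl fun a _ => h1 a]
    simp only [Fintype.sum_prod_type, ← Finset.sum_div, div_div]
    have h2 : ∀ G : Fin K → ℤˣ → Fin K → ℤˣ → ℝ,
        ∑ a, ∑ ε, ∑ b, ∑ δ, G a ε b δ = ∑ a, ∑ b, ∑ ε, ∑ δ, G a ε b δ := by
      intro G
      exact Finset.sum_congr rfl fun a _ => Finset.sum_comm
    rw [h2]
    ring

end Pool.RB
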